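import Pool.Agent.W_a3c811_h62.Mat
import Pool.Agent.W_a3c811_h62.LA.Stage
import Pool.Agent.W_a3c811_h62.LA.Real

/-! The trace system of the motivic endomorphisms. -/

noncomputable section

namespace Pool.Agent.H62A

open Polynomial Pool.Agent.WeilH_h6 Pool.Agent.WeilH_h6.VarClass Pool.Agent.H62D

universe u v w

variable {k : Type u} [Field k] {𝒱 : VarClass k}
variable {I : Type} {K : I → Type v} [∀ l, Field (K l)] [∀ l, CharZero (K l)]
  {W : ∀ l, Weil.{u, v, w} 𝒱 (K l)} {ι : Type} [Fintype ι] {Y : ι → 𝒱.Obj}

open Classical in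
/-- The ring of the motivic endomorphisms. -/
def MA (hW : Compatible W) (Y : ι → 𝒱.Obj) :
    Subring (∀ l, Module.End (K l) (Tot (W l) Y)) where
  carrier := {T | Motivic W Y T}
  mul_mem' := fun hS hT => motivic_mul hW hS hT
  one_mem' := motivic_one hW
  add_mem' := fun hS hT => motivic_add hS hT
  zero_mem' := motivic_zero
  neg_mem' := by
    intro T hT
    have h := motivic_smul (-1) hT
    have e : (fun l => ((-1 : ℚ) : K l) • T l) = -T := by
      funext l
      refine LinearMap.ext fun x => ?_
      change ((-1 : ℚ) : K l) • T l x = -(T l x)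
      rw [Rat.cast_neg, Rat.cast_one, neg_smul, one_smul]
    rw [e] at h
    exact h

open Classical in
/-- Rational scalars. -/
def MA.ratHom (hW : Compatible W) (Y : ι → 𝒱.Obj) : ℚ →+* MA hW Y where
  toFun r := ⟨fun l => (r : K l) • (1 : Module.End (K l) (Tot (W l) Y)),
    motivic_smul r (motivic_one hW)⟩
  map_one' := by
    ext1
    funext l
    simp
  map_mul' := by
    intro r s
    ext1
    funext l
    refine LinearMap.ext fun x => ?_
    change ((r * s : ℚ) : K l) • x = (r : K l) • (s : K l) • x
    rw [Rat.cast_mul, mul_smul]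
  map_zero' := by
    ext1
    funext l
    simp
  map_add' := by
    intro r s
    ext1
    funext l
    simp [add_smul]

instance MA.algebra (hW : Compatible W) (Y : ι → 𝒱.Obj) : Algebra ℚ (MA hW Y) :=
  RingHom.toAlgebra' (MA.ratHom hW Y) (by
    intro r T
    ext1
    funext l
    simp [MA.ratHom])

/-- The value of a motivic endomorphism in the theory `l`. -/
def MA.val {hW : Compatible W} (T : MA hW Y) (l : I) : Module.End (K l) (Tot (W l) Y) := T.1 l

lemma MA.smul_def (hW : Compatible W) (r : ℚ) (T : MA hW Y) (l : I) :
    MA.val (r • T) l = (r : K l) • MA.val T l := by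
  rw [Algebra.smul_def]
  change ((r : K l) • (1 : Module.End (K l) (Tot (W l) Y))) * MA.val T l = _
  ext x : 1
  rfl

open Classical in
/-- The rational trace of a motivic endomorphism. -/
def MA.trace (hW : Compatible W) (h : ∀ a n, KunnethMotivic W (Y a) n) (T : MA hW Y) : ℚ :=
  Classical.choose (motivic_trace hW h T.2)

open Classical in
lemma MA.trace_spec (hW : Compatible W) (h : ∀ a n, KunnethMotivic W (Y a) n) (T : MA hW Y)
    (l : I) : LinearMap.trace (K l) (Tot (W l) Y) (MA.val T l) =
      ((MA.trace hW h T : ℚ) : K l) :=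
  Classical.choose_spec (motivic_trace hW h T.2) l

/-- The trace system of the motivic endomorphisms. -/
def MA.ts [Nonempty I] (hW : Compatible W) (h : ∀ a n, KunnethMotivic W (Y a) n) :
    TS (MA hW Y) K (fun l => Tot (W l) Y) where
  ρ l := (Pi.evalRingHom _ l).comp (MA hW Y).subtype
  t :=
    { toFun := MA.trace hW h
      map_add' := by
        intro S T
        have l : I := Classical.arbitrary I
        have h1 := MA.trace_spec hW h (S + T) l
        have h2 := MA.trace_spec hW h S l
        have h3 := MA.trace_spec hW h T l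
        have : MA.val (S + T) l = MA.val S l + MA.val T l := rfl
        rw [this, map_add, h2, h3] at h1
        exact_mod_cast h1.symm
      map_smul' := by
        intro r T
        have l : I := Classical.arbitrary I
        have h1 := MA.trace_spec hW h (r • T) l
        have h3 := MA.trace_spec hW h T l
        rw [MA.smul_def, map_smul, h3, smul_eq_mul] at h1
        rw [RingHom.id_apply, smul_eq_mul]
        exact_mod_cast h1.symm }
  tr l T := MA.trace_spec hW h T l

open Classical in
/-- A theory in which `D` holds for the products of the strata is pure. -/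
lemma MA.pure [Nonempty I] (hW : Compatible W) (h : ∀ a n, KunnethMotivic W (Y a) n) {l0 : I}
    (hD : ∀ a b, (W l0).HomEqNum ((Y a).prod (Y b))) : (MA.ts hW h).Pure l0 := by
  intro T hT
  refine motivic_eq_zero hW h hD T.2 fun S hS => ?_
  have h1 := hT ⟨S, hS⟩
  have h2 := MA.trace_spec hW h ((⟨S, hS⟩ : MA hW Y) * T) l0
  have h3 : MA.trace hW h ((⟨S, hS⟩ : MA hW Y) * T) = 0 := h1
  rw [h3, Rat.cast_zero] at h2
  exact h2

end Pool.Agent.H62A
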