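import Pool.Agent.W_a3c811_h62.Build

/-! The final stage of a realisation. -/

noncomputable section

namespace Pool.Agent.H62A

open Polynomial Module Pool.Agent.WeilH_h6 Pool.Agent.WeilH_h6.VarClass Pool.Agent.H62D

universe u v w

variable {k : Type u} [Field k] {𝒱 : VarClass k}
variable {I : Type} {K : I → Type v} [∀ l, Field (K l)] [∀ l, CharZero (K l)]
  {W : ∀ l, Weil.{u, v, w} 𝒱 (K l)}

section

variable {C : MComplex W} (R : Realisation C) [Nonempty I] (hW : Compatible W)
  (hK : ∀ a n, KunnethMotivic W (C.Y a) n) (h : MA hW C.Y)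
  (hh : ∀ l, (C.d l : Module.End (K l) (Tot (W l) C.Y)) * MA.val h l * C.d l = C.d l)

/-- the differential -/
def MComplex.dA (C : MComplex W) (hW : Compatible W) : MA hW C.Y := ⟨C.d, C.d_motivic⟩

/-- the projector -/
def Realisation.eA (R : Realisation C) (hW : Compatible W) : MA hW C.Y := ⟨R.e, R.e_chain.motivic⟩

/-- the idempotent cutting out the realisation -/
def omg (R : Realisation C) (hW : Compatible W) (h : MA hW C.Y) : MA hW C.Y :=
  ((1 - C.dA hW * h) * (1 - h * C.dA hW)) * R.eA hW * ((1 - C.dA hW * h) * (1 - h * C.dA hW))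

include hh in
lemma exists_S (l : I) : ∃ S : R.V l →ₗ[K l] Tot (W l) C.Y,
    (R.u l ∘ₗ (1 - MA.val h l * C.d l)) ∘ₗ S = LinearMap.id ∧
      S ∘ₗ (R.u l ∘ₗ (1 - MA.val h l * C.d l)) = MA.val (omg R hW h) l :=
  exists_section (C.d l) (MA.val h l) (R.e l) (R.u l) (LinearMap.ext fun x => C.d_sq' l x) (hh l)
    (LinearMap.ext fun x => R.e_chain.comm' l x) (R.e_idem l) (R.u_surj l) (R.u_ker l)

/-- the family of retracts -/
def mkRet : TS.Ret (MA.ts hW hK) (omg R hW h) R.V where
  U l := R.u l ∘ₗ (1 - MA.val h l * C.d l)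
  S l := Classical.choose (exists_S R hW h hh l)
  us l := (Classical.choose_spec (exists_S R hW h hh l)).1
  su l := (Classical.choose_spec (exists_S R hW h hh l)).2

/-- the trace system on the realisations -/
abbrev T2 : TS (mkRet R hW hK h hh).sub K R.V := (mkRet R hW hK h hh).ts

lemma exists_elem (T : MA hW C.Y) (θ : ∀ l, Module.End (K l) (R.V l))
    (hT : ∀ l, Desc R l (MA.val T l) (θ l)) :
    ∃ y : (mkRet R hW hK h hh).sub, ∀ l, (T2 R hW hK h hh).ρ l y = θ l := by
  obtain ⟨y, _, hy⟩ := (mkRet R hW hK h hh).exists_of_comm (x := T * (1 - h * C.dA hW)) (θ := θ)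
    (fun l => comm_section (C.d l) (MA.val h l) (MA.val T l) (R.u l) (θ l) (hh l) (hT l).1
      (hT l).2)
  exact ⟨y, hy⟩

lemma exists_f : ∃ y : (mkRet R hW hK h hh).sub, ∀ l, (T2 R hW hK h hh).ρ l y = R.φ l :=
  exists_elem R hW hK h hh ⟨R.F, R.F_chain.motivic⟩ R.φ fun l => Desc.phi R l

lemma exists_n : ∃ y : (mkRet R hW hK h hh).sub, ∀ l, (T2 R hW hK h hh).ρ l y = R.ν l :=
  exists_elem R hW hK h hh ⟨R.N, R.N_chain.motivic⟩ R.ν fun l => Desc.nu R l

lemma exists_g (w : ℤ) :
    ∃ y : (mkRet R hW hK h hh).sub, ∀ l, (T2 R hW hK h hh).ρ l y = R.pdeg l w :=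
  exists_elem R hW hK h hh ⟨fun l => degProj (W l) C.Y C.pos C.tw w, motivic_degProj hK w⟩
    (fun l => R.pdeg l w) fun l => R.desc_pdeg l w

lemma exists_s (p : ℤ) :
    ∃ y : (mkRet R hW hK h hh).sub, ∀ l, (T2 R hW hK h hh).ρ l y = R.ppos l p :=
  exists_elem R hW hK h hh ⟨fun l => posProj (W l) C.Y C.pos p, motivic_posProj hW p⟩
    (fun l => R.ppos l p) fun l => R.desc_ppos l p

omit [Nonempty I] in
lemma pdeg_idem (l : I) (w : ℤ) : R.pdeg l w * R.pdeg l w = R.pdeg l w := by
  refine Desc.ext R ((R.desc_pdeg l w).mul R (R.desc_pdeg l w)) ?_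
  have e : degProj (W l) C.Y C.pos C.tw w ∘ₗ degProj (W l) C.Y C.pos C.tw w =
      degProj (W l) C.Y C.pos C.tw w :=
    LinearMap.ext fun x => degProj_of_mem _ _ _ _ (degProj_mem _ _ _ _ _ _)
  rw [e]
  exact R.desc_pdeg l w

omit [Nonempty I] in
lemma ppos_idem (l : I) (p : ℤ) : R.ppos l p * R.ppos l p = R.ppos l p := by
  refine Desc.ext R ((R.desc_ppos l p).mul R (R.desc_ppos l p)) ?_
  have e : posProj (W l) C.Y C.pos p ∘ₗ posProj (W l) C.Y C.pos p =
      posProj (W l) C.Y C.pos p :=
    LinearMap.ext fun x => posProj_of_mem _ _ _ (posProj_mem _ _ _ _ _)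
  rw [e]
  exact R.desc_ppos l p

omit [Nonempty I] in
lemma desc_zero (l : I) : Desc R l 0 0 := by
  refine ⟨fun x _ => ?_, fun x _ => ?_⟩
  · simp
  · simp

omit [Nonempty I] in
lemma ppos_orth (l : I) (p p' : ℤ) (hp : p ≠ p') : R.ppos l p * R.ppos l p' = 0 := by
  refine Desc.ext R ((R.desc_ppos l p).mul R (R.desc_ppos l p')) ?_
  rw [posProj_orth _ _ _ hp]
  exact desc_zero R l

omit [Nonempty I] in
lemma ppos_sum (l : I) : ∑ p ∈ Finset.univ.image C.pos, R.ppos l p = 1 := by
  ext y
  obtain ⟨x, hx, rfl⟩ := R.u_surj l y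
  have h1 := LinearMap.congr_fun (sum_posProj (W l) C.Y C.pos) x
  rw [LinearMap.sum_apply] at h1 ⊢
  have h2 := congrArg (R.u l) h1
  rw [map_sum] at h2
  rw [Module.End.one_apply]
  refine Eq.trans (Finset.sum_congr rfl fun p _ => ?_) h2
  exact ((R.desc_ppos l p).2 x hx).symm

omit [Nonempty I] in
lemma comm_of_comp {l : I} {T T' S S' : TEnd (W l) C.Y} {a b c d : Module.End (K l) (R.V l)}
    (h1 : Desc R l T a) (h2 : Desc R l T' b) (h3 : Desc R l S c) (h4 : Desc R l S' d)
    (h : T ∘ₗ T' = S ∘ₗ S') : a * b = c * d := by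
  refine Desc.ext R (h1.mul R h2) ?_
  rw [h]
  exact h3.mul R h4

/-- The final stage of the realisation. -/
def mkStage : Stage (T2 R hW hK h hh) where
  f := Classical.choose (exists_f R hW hK h hh)
  n := Classical.choose (exists_n R hW hK h hh)
  g w := Classical.choose (exists_g R hW hK h hh w)
  s p := Classical.choose (exists_s R hW hK h hh p)
  P := Finset.univ.image C.pos
  q := R.q
  g_idem l w := by
    rw [Classical.choose_spec (exists_g R hW hK h hh w)]
    exact pdeg_idem R l w
  s_idem l p := by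
    rw [Classical.choose_spec (exists_s R hW hK h hh p)]
    exact ppos_idem R l p
  s_orth l p p' hp := by
    rw [Classical.choose_spec (exists_s R hW hK h hh p),
      Classical.choose_spec (exists_s R hW hK h hh p')]
    exact ppos_orth R l p p' hp
  s_sum l := by
    simp only [Classical.choose_spec (exists_s R hW hK h hh _)]
    exact ppos_sum R l
  gs l w p := by
    rw [Classical.choose_spec (exists_g R hW hK h hh w),
      Classical.choose_spec (exists_s R hW hK h hh p)]
    exact comm_of_comp R (R.desc_pdeg l w) (R.desc_ppos l p) (R.desc_ppos l p) (R.desc_pdeg l w)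
      (degProj_comm_posProj _ _ _ _ _ _)
  fg l w := by
    rw [Classical.choose_spec (exists_f R hW hK h hh),
      Classical.choose_spec (exists_g R hW hK h hh w)]
    refine comm_of_comp R (Desc.phi R l) (R.desc_pdeg l w) (R.desc_pdeg l w) (Desc.phi R l) ?_
    have := comp_degProj (W l) C.Y C.pos C.tw (R.F_chain.bidegree l) w
    rwa [add_zero] at this
  ng l w := by
    rw [Classical.choose_spec (exists_n R hW hK h hh),
      Classical.choose_spec (exists_g R hW hK h hh w)]
    refine comm_of_comp R (Desc.nu R l) (R.desc_pdeg l w) (R.desc_pdeg l w) (Desc.nu R l) ?_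
    have := comp_degProj (W l) C.Y C.pos C.tw (R.N_chain.bidegree l) w
    rwa [add_zero] at this
  fs l p := by
    rw [Classical.choose_spec (exists_f R hW hK h hh),
      Classical.choose_spec (exists_s R hW hK h hh p)]
    refine comm_of_comp R (Desc.phi R l) (R.desc_ppos l p) (R.desc_ppos l p) (Desc.phi R l) ?_
    have := comp_posProj (W l) C.Y C.pos C.tw (R.F_chain.bidegree l) p
    rwa [add_zero] at this
  ns l p := by
    rw [Classical.choose_spec (exists_n R hW hK h hh),
      Classical.choose_spec (exists_s R hW hK h hh p),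
      Classical.choose_spec (exists_s R hW hK h hh (p + 2))]
    exact comm_of_comp R (Desc.nu R l) (R.desc_ppos l p) (R.desc_ppos l (p + 2)) (Desc.nu R l)
      (comp_posProj (W l) C.Y C.pos C.tw (R.N_chain.bidegree l) p)
  nf l := by
    rw [Classical.choose_spec (exists_f R hW hK h hh),
      Classical.choose_spec (exists_n R hW hK h hh)]
    exact LinearMap.ext fun y => R.comm l y

lemma stage_f (l : I) : (T2 R hW hK h hh).ρ l (mkStage R hW hK h hh).f = R.φ l :=
  Classical.choose_spec (exists_f R hW hK h hh) l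

lemma stage_n (l : I) : (T2 R hW hK h hh).ρ l (mkStage R hW hK h hh).n = R.ν l :=
  Classical.choose_spec (exists_n R hW hK h hh) l

lemma stage_g (l : I) (w : ℤ) :
    (T2 R hW hK h hh).ρ l ((mkStage R hW hK h hh).g w) = R.pdeg l w :=
  Classical.choose_spec (exists_g R hW hK h hh w) l

lemma stage_s (l : I) (p : ℤ) :
    (T2 R hW hK h hh).ρ l ((mkStage R hW hK h hh).s p) = R.ppos l p :=
  Classical.choose_spec (exists_s R hW hK h hh p) l

lemma range_g (l : I) (w : ℤ) :
    LinearMap.range ((T2 R hW hK h hh).ρ l ((mkStage R hW hK h hh).g w)) = R.deg l w := by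
  rw [stage_g, R.range_pdeg]

lemma range_gs (l : I) (w p : ℤ) :
    LinearMap.range ((T2 R hW hK h hh).ρ l
      ((mkStage R hW hK h hh).g w * (mkStage R hW hK h hh).s p)) = R.gr l w p := by
  have e := ((T2 R hW hK h hh).ρ l).map_mul' ((mkStage R hW hK h hh).g w)
    ((mkStage R hW hK h hh).s p)
  refine Eq.trans (congrArg LinearMap.range e) ?_
  refine Eq.trans (congrArg LinearMap.range
    (congrArg₂ (· * ·) (stage_g R hW hK h hh l w) (stage_s R hW hK h hh l p))) ?_
  exact R.range_pgr l w p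

lemma range_inv (l : I) (w : ℤ) :
    LinearMap.range ((T2 R hW hK h hh).ρ l ((mkStage R hW hK h hh).g w)) ⊓
      LinearMap.ker ((T2 R hW hK h hh).ρ l (mkStage R hW hK h hh).n) = R.inv l w := by
  rw [stage_g, R.range_pdeg, stage_n]
  rfl

lemma wm_iff (l : I) : (mkStage R hW hK h hh).WM l ↔ R.WeightMonodromy l := by
  unfold Stage.WM Realisation.WeightMonodromy
  simp only [range_gs, stage_n]

end

end Pool.Agent.H62A
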