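import Pool.Agent.W_f569db_h62.StDefs

/-! Definitions for the statement: families of Weil cohomology theories with common cycles,
complexes of correspondences, realisations of motives with their weight spectral sequence. -/

noncomputable section

namespace Pool.Agent.H62A

open Polynomial Pool.Agent.WeilH_h6 Pool.Agent.WeilH_h6.VarClass Pool.Agent.H62D

universe u v w

section linear

variable {K : Type v} [Field K] {E V : Type w} [AddCommGroup E] [Module K E] [AddCommGroup V]
  [Module K V]

/-- `d` is a differential: `d d = 0`. -/
def SqZero (d : E →ₗ[K] E) : Prop := ∀ x, d (d x) = 0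

/-- The dimension of the cohomology `ker d / im d`. -/
def cohDim (d : E →ₗ[K] E) : ℕ :=
  Module.finrank K (LinearMap.ker d) - Module.finrank K (LinearMap.range d)

/-- The data `(V, φ, ν, u)` are computed by the data `(E, d, e, F, N)`: `e` is idempotent on the
cohomology of `d`; `u` maps the cocycles onto `V`, and a cocycle `x` has class `u x = 0` if and only
if `e x` is a coboundary (so `V` is the image of `e` in the cohomology of `d`); `u` transforms `F`
into `φ` and `N` into `ν`; and `ν φ = q φ ν`. -/
structure Computes (d e F N : E →ₗ[K] E) (u : E →ₗ[K] V) (φ ν : V →ₗ[K] V) (q : K) : Prop where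
  idem : ∀ x, d x = 0 → e (e x) - e x ∈ LinearMap.range d
  surj : ∀ y, ∃ x, d x = 0 ∧ u x = y
  ker : ∀ x, d x = 0 → (u x = 0 ↔ e x ∈ LinearMap.range d)
  frob : ∀ x, d x = 0 → u (F x) = φ (u x)
  mono : ∀ x, d x = 0 → u (N x) = ν (u x)
  comm : ∀ y, ν (φ y) = q • φ (ν y)

end linear

section family

variable {k : Type u} [Field k] {𝒱 : VarClass k} {I : Type} {K : I → Type v} [∀ l, Field (K l)]
  (W : ∀ l, Weil.{u, v, w} 𝒱 (K l))

/-- The product of two cycles is given by a cycle which does not depend on the theory. -/
def MulCompat : Prop :=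
  ∀ (X : 𝒱.Obj) (i j : ℕ) (z : Cyc X i) (z' : Cyc X j), ∃ t : Cyc X (i + j),
    ∀ l, (W l).cl t = (W l).cl z * (W l).cl z'

/-- The pull-back of a cycle is given by a cycle which does not depend on the theory. -/
def PullCompat : Prop :=
  ∀ (X Y : 𝒱.Obj) (f : X ⟶ Y) (i : ℕ) (z : Cyc Y i), ∃ t : Cyc X i,
    ∀ l, (W l).cl t = (W l).pb f ((W l).cl z)

/-- The push-forward of a cycle is given by a cycle which does not depend on the theory. -/
def PushCompat : Prop :=
  ∀ (X Y : 𝒱.Obj) (f : X ⟶ Y) (i j : ℕ), i + Y.dim = j + X.dim → ∀ z : Cyc X i,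
    ∃ t : Cyc Y j, ∀ (l : I) (y : (W l).H Y),
      (W l).deg ((W l).cl t * y) = (W l).deg ((W l).cl z * (W l).pb f y)

/-- A family of Weil cohomology theories is compatible if products, pull-backs and push-forwards of
cycles do not depend on the theory (for the `l`-adic cohomologies this is intersection theory). -/
structure Compatible : Prop where
  mul : MulCompat W
  pull : PullCompat W
  push : PushCompat W

end family

section single

variable {k : Type u} [Field k] {𝒱 : VarClass k} {K : Type v} [Field K] (W : Weil.{u, v, w} 𝒱 K)

/-- Cycles of mixed codimension: a cycle of codimension `i` for every `i`. -/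
abbrev TCyc (X : 𝒱.Obj) : Type u := ∀ i : ℕ, Cyc X i

/-- The class of a cycle of mixed codimension. -/
def clT {X : 𝒱.Obj} (z : TCyc X) : W.H X := ∑ i ∈ Finset.range (X.dim + 1), W.cl (z i)

variable {ι : Type} (Y : ι → 𝒱.Obj)

/-- The direct sum of the cohomologies of the varieties `Y a`. -/
abbrev Tot : Type w := ∀ a, W.H (Y a)

/-- The endomorphisms of the direct sum of the cohomologies of the varieties `Y a`. -/
abbrev TEnd : Type w := Tot W Y →ₗ[K] Tot W Y

/-- The endomorphism `T` is the action of the matrix `c` of correspondences between the `Y a`. -/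
def IsAction [Fintype ι] (c : ∀ a b, TCyc ((Y a).prod (Y b))) (T : TEnd W Y) : Prop :=
  ∀ (x : Tot W Y) (b : ι) (y : W.H (Y b)),
    W.deg (T x b * y) = ∑ a, W.deg (clT W (c a b) * W.cross (x a) y)

/-- The subspace `H^n(X)` for an integer `n` (zero for `n < 0`). -/
def gradZ (X : 𝒱.Obj) (n : ℤ) : Submodule K (W.H X) := if 0 ≤ n then W.grad X n.toNat else ⊥

variable (pos tw : ι → ℤ)

/-- The part of total degree `w`: the sum of the `H^{w - pos a - 2 tw a}(Y a)`. -/
def degPart (w : ℤ) : Submodule K (Tot W Y) :=
  Submodule.pi Set.univ fun a => gradZ W (Y a) (w - pos a - 2 * tw a)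

/-- The part of position `p`: the sum of the `H(Y a)` with `pos a = p`. -/
def posPart (p : ℤ) : Submodule K (Tot W Y) :=
  Submodule.pi Set.univ fun a => if pos a = p then ⊤ else ⊥

/-- `T` raises the total degree by `s` and the position by `t`. -/
def HasBidegree (s t : ℤ) (T : TEnd W Y) : Prop :=
  (∀ w, ∀ x ∈ degPart W Y pos tw w, T x ∈ degPart W Y pos tw (w + s)) ∧
    ∀ p, ∀ x ∈ posPart W Y pos p, T x ∈ posPart W Y pos (p + t)

end single

section complexes

variable {k : Type u} [Field k] {𝒱 : VarClass k} {I : Type} {K : I → Type v} [∀ l, Field (K l)]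
  (W : ∀ l, Weil.{u, v, w} 𝒱 (K l))

/-- A family of endomorphisms of the direct sums of the cohomologies of the `Y a` is motivic if it
is given, in all theories, by one and the same matrix of correspondences between the `Y a`. -/
def Motivic {ι : Type} [Fintype ι] (Y : ι → 𝒱.Obj) (T : ∀ l, TEnd (W l) Y) : Prop :=
  ∃ c : ∀ a b, TCyc ((Y a).prod (Y b)), ∀ l, IsAction (W l) Y c (T l)

/-- The projector onto `H^n(X)` is given in all theories by one and the same correspondence. -/
def KunnethMotivic (X : 𝒱.Obj) (n : ℕ) : Prop :=
  ∃ c : TCyc (X.prod X), ∀ (l : I) (i : ℕ) (x y : (W l).H X), x ∈ (W l).grad X i →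
    (W l).deg (clT (W l) c * (W l).cross x y) = if i = n then (W l).deg (x * y) else 0

/-- A complex of correspondences, as in the `E_1`-term of the weight spectral sequence of a
variety with semistable reduction: finitely many smooth proper varieties `Y a` (the strata), each
with a position and a Tate twist, and a differential given in all theories by the same matrix of
correspondences. -/
structure MComplex where
  /-- the index set of the strata -/
  ι : Type
  [fin : Fintype ι]
  /-- the strata -/
  Y : ι → 𝒱.Obj
  /-- the position of the stratum in the complex -/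
  pos : ι → ℤ
  /-- the Tate twist -/
  tw : ι → ℤ
  /-- the differential -/
  d : ∀ l, TEnd (W l) Y
  d_motivic : Motivic W Y d
  d_bidegree : ∀ l, HasBidegree (W l) Y pos tw 1 1 (d l)
  d_sq : ∀ l, SqZero (d l)

attribute [instance] MComplex.fin

variable {W}

/-- `T` is a motivic endomorphism of the complex which raises the position by `t` and keeps the
total degree. -/
structure IsChain (C : MComplex W) (t : ℤ) (T : ∀ l, TEnd (W l) C.Y) : Prop where
  motivic : Motivic W C.Y T
  bidegree : ∀ l, HasBidegree (W l) C.Y C.pos C.tw 0 t (T l)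
  comm : ∀ l, Commutes (T l) (C.d l)

/-- The dimension of the total cohomology of the complex in the theory `l`. -/
def MComplex.betti (C : MComplex W) (l : I) : ℕ := cohDim (C.d l)

/-- A family of realisations computed by the complex `C`: spaces `V l` with a Frobenius `φ l` and a
monodromy operator `ν l`, `ν φ = q φ ν`, and a projector `e` of the complex (the motive), such that
`V l` is the image of `e` in the cohomology of the complex in the theory `l`, compatibly with
endomorphisms `F` (Frobenius) and `N` (monodromy) of the complex. -/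
structure Realisation (C : MComplex W) where
  /-- the cardinality of the residue field -/
  q : ℚ
  /-- the projector -/
  e : ∀ l, TEnd (W l) C.Y
  /-- the Frobenius of the complex -/
  F : ∀ l, TEnd (W l) C.Y
  /-- the monodromy operator of the complex -/
  N : ∀ l, TEnd (W l) C.Y
  e_chain : IsChain C 0 e
  F_chain : IsChain C 0 F
  N_chain : IsChain C 2 N
  /-- the realisation in the theory `l` -/
  V : I → Type w
  [acg : ∀ l, AddCommGroup (V l)]
  [mod : ∀ l, Module (K l) (V l)]
  [finite : ∀ l, FiniteDimensional (K l) (V l)]
  /-- the Frobenius on `V l` -/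
  φ : ∀ l, V l →ₗ[K l] V l
  /-- the monodromy operator on `V l` -/
  ν : ∀ l, V l →ₗ[K l] V l
  /-- the class in `V l` of a cocycle -/
  u : ∀ l, Tot (W l) C.Y →ₗ[K l] V l
  computes : ∀ l, Computes (C.d l) (e l) (F l) (N l) (u l) (φ l) (ν l) (q : K l)

attribute [instance] Realisation.acg Realisation.mod Realisation.finite

namespace Realisation

variable {C : MComplex W} (R : Realisation C)

/-- The part `V^w` of degree `w` of `V l`: the degree `w` cohomology of the motive. -/
def deg (l : I) (w : ℤ) : Submodule (K l) (R.V l) :=
  (LinearMap.ker (C.d l) ⊓ degPart (W l) C.Y C.pos C.tw w).map (R.u l)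

/-- The part of position `p` of `V^w`, which is of weight `w - p`. -/
def gr (l : I) (w p : ℤ) : Submodule (K l) (R.V l) :=
  (LinearMap.ker (C.d l) ⊓ (degPart (W l) C.Y C.pos C.tw w ⊓ posPart (W l) C.Y C.pos p)).map (R.u l)

/-- The weight monodromy conjecture for the realisation `V l`: the `i`-th power of the monodromy
operator maps the part of `V^w` of weight `w + i` bijectively onto the part of weight `w - i`. -/
def WeightMonodromy (l : I) : Prop :=
  ∀ (w : ℤ) (i : ℕ), Set.BijOn (R.ν l ^ i) (R.gr l w (-i)) (R.gr l w i)

/-- The inertia invariants of `V^w`. -/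
def inv (l : I) (w : ℤ) : Submodule (K l) (R.V l) := R.deg l w ⊓ LinearMap.ker (R.ν l)

end Realisation

end complexes

/-- The subspace `U` is stable under `φ` and the characteristic polynomial of `φ` on `U` is the
rational polynomial `P`. -/
def CharpolyOn {K : Type v} [Field K] [CharZero K] {V : Type w} [AddCommGroup V] [Module K V]
    [FiniteDimensional K V] (φ : V →ₗ[K] V) (U : Submodule K V) (P : ℚ[X]) : Prop :=
  ∃ h : ∀ x ∈ U, φ x ∈ U, (φ.restrict h).charpoly = P.map (algebraMap ℚ K)

/-- The subspace `U` is stable under `φ` and the characteristic polynomial of `φ` on `U` divides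
the rational polynomial `P`. -/
def CharpolyDvd {K : Type v} [Field K] [CharZero K] {V : Type w} [AddCommGroup V] [Module K V]
    [FiniteDimensional K V] (φ : V →ₗ[K] V) (U : Submodule K V) (P : ℚ[X]) : Prop :=
  ∃ h : ∀ x ∈ U, φ x ∈ U, (φ.restrict h).charpoly ∣ P.map (algebraMap ℚ K)

end Pool.Agent.H62A
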