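import Pool.Agent.W_a3c811_h62.StDefs

/-! The fields of the structures in expanded form. -/

noncomputable section

namespace Pool.Agent.H62A

open Polynomial Pool.Agent.WeilH_h6 Pool.Agent.WeilH_h6.VarClass Pool.Agent.H62D

universe u v w

variable {k : Type u} [Field k] {𝒱 : VarClass k}
variable {I : Type} {K : I → Type v} [∀ l, Field (K l)]
  {W : ∀ l, Weil.{u, v, w} 𝒱 (K l)}

theorem MComplex.d_sq' (C : MComplex W) (l : I) (x : Tot (W l) C.Y) : C.d l (C.d l x) = 0 :=
  C.d_sq l x

theorem IsChain.comm' {C : MComplex W} {t : ℤ} {T : ∀ l, TEnd (W l) C.Y} (h : IsChain C t T)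
    (l : I) (x : Tot (W l) C.Y) : T l (C.d l x) = C.d l (T l x) :=
  h.comm l x

variable {C : MComplex W} (R : Realisation C)

theorem Realisation.e_idem (l : I) (x : Tot (W l) C.Y) (hx : C.d l x = 0) :
    R.e l (R.e l x) - R.e l x ∈ LinearMap.range (C.d l) := (R.computes l).idem x hx

theorem Realisation.u_surj (l : I) (y : R.V l) : ∃ x, C.d l x = 0 ∧ R.u l x = y :=
  (R.computes l).surj y

theorem Realisation.u_ker (l : I) (x : Tot (W l) C.Y) (hx : C.d l x = 0) :
    R.u l x = 0 ↔ R.e l x ∈ LinearMap.range (C.d l) := (R.computes l).ker x hx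

theorem Realisation.u_F (l : I) (x : Tot (W l) C.Y) (hx : C.d l x = 0) :
    R.u l (R.F l x) = R.φ l (R.u l x) := (R.computes l).frob x hx

theorem Realisation.u_N (l : I) (x : Tot (W l) C.Y) (hx : C.d l x = 0) :
    R.u l (R.N l x) = R.ν l (R.u l x) := (R.computes l).mono x hx

theorem Realisation.comm (l : I) (y : R.V l) :
    R.ν l (R.φ l y) = (R.q : K l) • R.φ l (R.ν l y) := (R.computes l).comm y

end Pool.Agent.H62A
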