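import Pool.Agent.W_a3c811_h62.Mat

/-! Degree and position projectors on the direct sum of the cohomologies of the `Y a`. -/

noncomputable section

namespace Pool.Agent.H62A

open Polynomial Pool.Agent.WeilH_h6 Pool.Agent.WeilH_h6.VarClass Pool.Agent.H62D

universe u v w

variable {k : Type u} [Field k] {𝒱 : VarClass k}

section single

variable {K : Type v} [Field K] (W : Weil.{u, v, w} 𝒱 K) {ι : Type} (Y : ι → 𝒱.Obj)
  (pos tw : ι → ℤ)

/-- The projector of `H(X)` onto `gradZ X n`. -/
def kapZ (X : 𝒱.Obj) (n : ℤ) : W.H X →ₗ[K] W.H X := if 0 ≤ n then kap W X n.toNat else 0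

/-- The projector onto the part of total degree `w`. -/
def degProj (w : ℤ) : TEnd W Y :=
  LinearMap.pi fun a => kapZ W (Y a) (w - pos a - 2 * tw a) ∘ₗ LinearMap.proj a

/-- The projector onto the part of position `p`. -/
def posProj (p : ℤ) : TEnd W Y :=
  LinearMap.pi fun a => (if pos a = p then LinearMap.id else 0) ∘ₗ LinearMap.proj a

lemma kapZ_mem (X : 𝒱.Obj) (n : ℤ) (x : W.H X) : kapZ W X n x ∈ gradZ W X n := by
  unfold kapZ gradZ
  split_ifs with h
  · exact kap_mem W _ x
  · simp

lemma kapZ_of_mem {X : 𝒱.Obj} {n : ℤ} {x : W.H X} (hx : x ∈ gradZ W X n) :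
    kapZ W X n x = x := by
  unfold gradZ at hx
  unfold kapZ
  split_ifs at hx ⊢ with h
  · rw [kap_apply W hx, if_pos rfl]
  · rw [(Submodule.mem_bot _).1 hx, map_zero]

lemma kapZ_of_mem_ne {X : 𝒱.Obj} {m n : ℤ} (hmn : m ≠ n) {x : W.H X} (hx : x ∈ gradZ W X m) :
    kapZ W X n x = 0 := by
  unfold gradZ at hx
  by_cases hm : 0 ≤ m
  · rw [if_pos hm] at hx
    unfold kapZ
    split_ifs with hn
    · rw [kap_apply W hx, if_neg (by omega)]
    · rfl
  · rw [if_neg hm] at hx
    rw [(Submodule.mem_bot _).1 hx, map_zero]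

lemma Proj_degProj_apply (w : ℤ) (x : Tot W Y) (a : ι) :
    degProj W Y pos tw w x a = kapZ W (Y a) (w - pos a - 2 * tw a) (x a) := rfl

lemma Proj_posProj_apply (p : ℤ) (x : Tot W Y) (a : ι) :
    posProj W Y pos p x a = if pos a = p then x a else 0 := by
  have h : posProj W Y pos p x a =
      (if pos a = p then (LinearMap.id : W.H (Y a) →ₗ[K] W.H (Y a)) else 0) (x a) := rfl
  rw [h]
  split_ifs <;> rfl

lemma degProj_mem (w : ℤ) (x : Tot W Y) : degProj W Y pos tw w x ∈ degPart W Y pos tw w := by
  intro a _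
  exact kapZ_mem W (Y a) _ (x a)

lemma degProj_of_mem {w : ℤ} {x : Tot W Y} (hx : x ∈ degPart W Y pos tw w) :
    degProj W Y pos tw w x = x := by
  funext a
  exact kapZ_of_mem W (hx a (Set.mem_univ a))

lemma range_degProj (w : ℤ) :
    LinearMap.range (degProj W Y pos tw w) = degPart W Y pos tw w := by
  refine le_antisymm ?_ ?_
  · rintro _ ⟨x, rfl⟩
    exact degProj_mem W Y pos tw w x
  · intro x hx
    exact ⟨x, degProj_of_mem W Y pos tw hx⟩

lemma posProj_mem (p : ℤ) (x : Tot W Y) : posProj W Y pos p x ∈ posPart W Y pos p := by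
  intro a _
  change posProj W Y pos p x a ∈ (if pos a = p then ⊤ else ⊥ : Submodule K (W.H (Y a)))
  rw [Proj_posProj_apply]
  split_ifs with h
  · exact Submodule.mem_top
  · exact Submodule.zero_mem _

lemma posProj_of_mem {p : ℤ} {x : Tot W Y} (hx : x ∈ posPart W Y pos p) :
    posProj W Y pos p x = x := by
  funext a
  have h : x a ∈ (if pos a = p then ⊤ else ⊥ : Submodule K (W.H (Y a))) := hx a (Set.mem_univ a)
  rw [Proj_posProj_apply]
  by_cases hp : pos a = p
  · rw [if_pos hp]
  · rw [if_neg hp] at h ⊢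
    exact ((Submodule.mem_bot _).1 h).symm

lemma range_posProj (p : ℤ) : LinearMap.range (posProj W Y pos p) = posPart W Y pos p := by
  refine le_antisymm ?_ ?_
  · rintro _ ⟨x, rfl⟩
    exact posProj_mem W Y pos p x
  · intro x hx
    exact ⟨x, posProj_of_mem W Y pos hx⟩

lemma posProj_orth {p p' : ℤ} (h : p ≠ p') :
    posProj W Y pos p ∘ₗ posProj W Y pos p' = 0 := by
  refine LinearMap.ext fun x => funext fun a => ?_
  rw [LinearMap.comp_apply, Proj_posProj_apply, Proj_posProj_apply]
  split_ifs with h1 h2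
  · exact absurd (h1.symm.trans h2) h
  · rfl
  · rfl

lemma sum_posProj [Fintype ι] :
    ∑ p ∈ Finset.univ.image pos, posProj W Y pos p = LinearMap.id := by
  classical
  refine LinearMap.ext fun x => funext fun a => ?_
  rw [LinearMap.sum_apply, Finset.sum_apply]
  simp only [Proj_posProj_apply]
  rw [Finset.sum_ite_eq, if_pos (Finset.mem_image_of_mem pos (Finset.mem_univ a))]
  rfl

lemma degProj_comm_posProj (w p : ℤ) :
    degProj W Y pos tw w ∘ₗ posProj W Y pos p = posProj W Y pos p ∘ₗ degProj W Y pos tw w := by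
  refine LinearMap.ext fun x => funext fun a => ?_
  rw [LinearMap.comp_apply, LinearMap.comp_apply, Proj_posProj_apply, Proj_degProj_apply,
    Proj_degProj_apply, Proj_posProj_apply]
  split_ifs with h
  · rfl
  · rw [map_zero]

/-- There is a finite set of degrees such that the degree projectors sum up to the identity: the
`w = n + pos a + 2 tw a`, `0 ≤ n ≤ 2 dim (Y a)` (`sum_kap`). -/
lemma exists_sum_degProj [Fintype ι] :
    ∃ D : Finset ℤ, ∑ w ∈ D, degProj W Y pos tw w = LinearMap.id := by
  classical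
  refine ⟨Finset.univ.biUnion fun a => (Finset.range (2 * (Y a).dim + 1)).image
    fun n : ℕ => (n : ℤ) + pos a + 2 * tw a, ?_⟩
  refine LinearMap.ext fun x => funext fun a => ?_
  rw [LinearMap.sum_apply, Finset.sum_apply]
  simp only [Proj_degProj_apply, LinearMap.id_apply]
  have key : ∀ m ∈ Finset.range (2 * (Y a).dim + 1), ∀ y ∈ W.grad (Y a) m,
      ∑ w ∈ Finset.univ.biUnion fun a => (Finset.range (2 * (Y a).dim + 1)).image
        fun n : ℕ => (n : ℤ) + pos a + 2 * tw a, kapZ W (Y a) (w - pos a - 2 * tw a) y = y := by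
    intro m hm y hy
    have hy' : y ∈ gradZ W (Y a) (m : ℤ) := by
      unfold gradZ
      rw [if_pos (by omega), Int.toNat_natCast]
      exact hy
    rw [Finset.sum_eq_single ((m : ℤ) + pos a + 2 * tw a)]
    · rw [show (m : ℤ) + pos a + 2 * tw a - pos a - 2 * tw a = m by ring]
      exact kapZ_of_mem W hy'
    · intro w _ hw
      refine kapZ_of_mem_ne W ?_ hy'
      intro h
      apply hw
      rw [h]
      ring
    · intro h
      exact absurd (Finset.mem_biUnion.2 ⟨a, Finset.mem_univ a,
        Finset.mem_image.2 ⟨m, hm, rfl⟩⟩) h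
  conv_lhs => rw [← sum_kap W (x a)]
  conv_rhs => rw [← sum_kap W (x a)]
  simp only [map_sum]
  rw [Finset.sum_comm]
  exact Finset.sum_congr rfl fun m hm => key m hm _ (kap_mem W m (x a))

lemma Proj_degProj_of_mem_ne {w w' : ℤ} (h : w' ≠ w) {x : Tot W Y}
    (hx : x ∈ degPart W Y pos tw w') : degProj W Y pos tw w x = 0 := by
  funext a
  refine kapZ_of_mem_ne W ?_ (hx a (Set.mem_univ a))
  intro h'
  apply h
  omega

lemma Proj_posProj_of_mem_ne {p p' : ℤ} (h : p' ≠ p) {x : Tot W Y}
    (hx : x ∈ posPart W Y pos p') : posProj W Y pos p x = 0 := by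
  funext a
  have h1 : x a ∈ (if pos a = p' then ⊤ else ⊥ : Submodule K (W.H (Y a))) :=
    hx a (Set.mem_univ a)
  rw [Proj_posProj_apply]
  by_cases h3 : pos a = p
  · rw [if_neg (fun h2 => h (h2.symm.trans h3))] at h1
    rw [if_pos h3]
    exact (Submodule.mem_bot _).1 h1
  · rw [if_neg h3]
    rfl

/-- An endomorphism of bidegree `(s, t)` intertwines the degree projectors: write
`x = ∑_{w'} degProj w' x`; then `T x = ∑_{w'} T (degProj w' x)` with
`T (degProj w' x) ∈ degPart (w' + s)`, and apply `degProj (w + s)`. -/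
lemma comp_degProj [Fintype ι] {s t : ℤ} {T : TEnd W Y} (hT : HasBidegree W Y pos tw s t T)
    (w : ℤ) : T ∘ₗ degProj W Y pos tw w = degProj W Y pos tw (w + s) ∘ₗ T := by
  obtain ⟨D, hD⟩ := exists_sum_degProj W Y pos tw
  have key : ∀ (w' : ℤ) (z : Tot W Y), z ∈ degPart W Y pos tw w' →
      T (degProj W Y pos tw w z) = degProj W Y pos tw (w + s) (T z) := by
    intro w' z hz
    by_cases h : w' = w
    · subst h
      rw [degProj_of_mem W Y pos tw hz, degProj_of_mem W Y pos tw (hT.1 w' z hz)]
    · rw [Proj_degProj_of_mem_ne W Y pos tw h hz, map_zero,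
        Proj_degProj_of_mem_ne W Y pos tw (fun h' => h (by omega)) (hT.1 w' z hz)]
  refine LinearMap.ext fun x => ?_
  have hx : x = ∑ w' ∈ D, degProj W Y pos tw w' x := by
    conv_lhs => rw [← LinearMap.id_apply (R := K) x, ← hD, LinearMap.sum_apply]
  rw [LinearMap.comp_apply, LinearMap.comp_apply, hx]
  simp only [map_sum]
  exact Finset.sum_congr rfl fun w' _ => key w' _ (degProj_mem W Y pos tw w' x)

lemma comp_posProj [Fintype ι] {s t : ℤ} {T : TEnd W Y} (hT : HasBidegree W Y pos tw s t T)
    (p : ℤ) : T ∘ₗ posProj W Y pos p = posProj W Y pos (p + t) ∘ₗ T := by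
  classical
  have key : ∀ (p' : ℤ) (z : Tot W Y), z ∈ posPart W Y pos p' →
      T (posProj W Y pos p z) = posProj W Y pos (p + t) (T z) := by
    intro p' z hz
    by_cases h : p' = p
    · subst h
      rw [posProj_of_mem W Y pos hz, posProj_of_mem W Y pos (hT.2 p' z hz)]
    · rw [Proj_posProj_of_mem_ne W Y pos h hz, map_zero,
        Proj_posProj_of_mem_ne W Y pos (fun h' => h (by omega)) (hT.2 p' z hz)]
  refine LinearMap.ext fun x => ?_
  have hx : x = ∑ p' ∈ Finset.univ.image pos, posProj W Y pos p' x := by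
    conv_lhs => rw [← LinearMap.id_apply (R := K) x, ← sum_posProj W Y pos, LinearMap.sum_apply]
  rw [LinearMap.comp_apply, LinearMap.comp_apply, hx]
  simp only [map_sum]
  exact Finset.sum_congr rfl fun p' _ => key p' _ (posProj_mem W Y pos p' x)

end single

section family

variable {I : Type} {K : I → Type v} [∀ l, Field (K l)] [∀ l, CharZero (K l)]
  {W : ∀ l, Weil.{u, v, w} 𝒱 (K l)} {ι : Type} [Fintype ι] {Y : ι → 𝒱.Obj}
  {pos tw : ι → ℤ}

lemma motivic_degProj (h : ∀ a n, KunnethMotivic W (Y a) n) (w : ℤ) :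
    Motivic W Y (fun l => degProj (W l) Y pos tw w) := by
  classical
  rw [motivic_iff]
  intro a b
  by_cases hb : b = a
  · subst hb
    have h1 : (fun l => blk (W l) (degProj (W l) Y pos tw w) b b) =
        fun l => kapZ (W l) (Y b) (w - pos b - 2 * tw b) := by
      funext l
      refine LinearMap.ext fun v => ?_
      change degProj (W l) Y pos tw w (Pi.single b v) b = _
      rw [Proj_degProj_apply, Pi.single_eq_same]
    rw [h1]
    by_cases hn : 0 ≤ w - pos b - 2 * tw b
    · have h2 : (fun l => kapZ (W l) (Y b) (w - pos b - 2 * tw b)) =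
          fun l => kap (W l) (Y b) (w - pos b - 2 * tw b).toNat := by
        funext l
        unfold kapZ
        rw [if_pos hn]
      rw [h2]
      exact kap_mem_JHom W (h b _)
    · have h2 : (fun l => kapZ (W l) (Y b) (w - pos b - 2 * tw b)) = 0 := by
        funext l
        unfold kapZ
        rw [if_neg hn]
        rfl
      rw [h2]
      exact zero_mem _
  · have h1 : (fun l => blk (W l) (degProj (W l) Y pos tw w) a b) = 0 := by
      funext l
      refine LinearMap.ext fun v => ?_
      change degProj (W l) Y pos tw w (Pi.single a v) b = 0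
      rw [Proj_degProj_apply, Pi.single_eq_of_ne hb, map_zero]
    rw [h1]
    exact zero_mem _

lemma motivic_posProj (hW : Compatible W) (p : ℤ) :
    Motivic W Y (fun l => posProj (W l) Y pos p) := by
  classical
  rw [motivic_iff]
  intro a b
  by_cases hb : b = a ∧ pos b = p
  · obtain ⟨rfl, hp⟩ := hb
    have h1 : (fun l => blk (W l) (posProj (W l) Y pos p) b b) =
        fun l => (LinearMap.id : (W l).H (Y b) →ₗ[K l] (W l).H (Y b)) := by
      funext l
      refine LinearMap.ext fun v => ?_
      change posProj (W l) Y pos p (Pi.single b v) b = _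
      rw [Proj_posProj_apply, if_pos hp, Pi.single_eq_same]
      rfl
    rw [h1]
    exact id_mem_JHom hW (Y b)
  · have h1 : (fun l => blk (W l) (posProj (W l) Y pos p) a b) = 0 := by
      funext l
      refine LinearMap.ext fun v => ?_
      change posProj (W l) Y pos p (Pi.single a v) b = 0
      rw [Proj_posProj_apply]
      split_ifs with hp
      · have hba : b ≠ a := fun h => hb ⟨h, hp⟩
        rw [Pi.single_eq_of_ne hba]
      · rfl
    rw [h1]
    exact zero_mem _

end family

end Pool.Agent.H62A
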