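import Pool.Agent.W_a3c811_h62.Alg
import Pool.Agent.W_a3c811_h62.Api
import Pool.Agent.W_a3c811_h62.Proj

/-! Construction of the final stage from a realisation. -/

noncomputable section

namespace Pool.Agent.H62A

open Polynomial Module Pool.Agent.WeilH_h6 Pool.Agent.WeilH_h6.VarClass Pool.Agent.H62D

universe u v w

/-- Descent of an operator to the realisation. -/
lemma exists_theta {F : Type v} [Field F] {E V : Type w} [AddCommGroup E] [Module F E]
    [AddCommGroup V] [Module F V] (d T : Module.End F E) (u : E →ₗ[F] V)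
    (us : ∀ y, ∃ x, d x = 0 ∧ u x = y) (hT : ∀ x, d x = 0 → d (T x) = 0)
    (h0 : ∀ x, d x = 0 → u x = 0 → u (T x) = 0) :
    ∃ θ : Module.End F V, ∀ x, d x = 0 → u (T x) = θ (u x) := by
  have hs : Function.Surjective (u ∘ₗ (LinearMap.ker d).subtype) := by
    intro y
    obtain ⟨x, hx, hy⟩ := us y
    exact ⟨⟨x, hx⟩, hy⟩
  obtain ⟨σ, hσ⟩ := (u ∘ₗ (LinearMap.ker d).subtype).exists_rightInverse_of_surjective
    (LinearMap.range_eq_top.2 hs)
  refine ⟨u ∘ₗ T ∘ₗ (LinearMap.ker d).subtype ∘ₗ σ, fun x hx => ?_⟩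
  have h1 : u ((σ (u x) : LinearMap.ker d) : E) = u x := LinearMap.congr_fun hσ (u x)
  have h2 : d (x - ((σ (u x) : LinearMap.ker d) : E)) = 0 := by
    rw [map_sub, hx, (σ (u x)).2, sub_zero]
  have h3 : u (x - ((σ (u x) : LinearMap.ker d) : E)) = 0 := by
    rw [map_sub, h1, sub_self]
  have h4 := h0 _ h2 h3
  rw [map_sub, map_sub, sub_eq_zero] at h4
  exact h4

variable {k : Type u} [Field k] {𝒱 : VarClass k}
variable {I : Type} {K : I → Type v} [∀ l, Field (K l)] [∀ l, CharZero (K l)]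
  {W : ∀ l, Weil.{u, v, w} 𝒱 (K l)}

section

variable {C : MComplex W} (R : Realisation C)

/-- The relation between an operator of the complex and an operator of the realisation. -/
def Desc (l : I) (T : TEnd (W l) C.Y) (θ : Module.End (K l) (R.V l)) : Prop :=
  (∀ x, C.d l x = 0 → C.d l (T x) = 0) ∧ ∀ x, C.d l x = 0 → R.u l (T x) = θ (R.u l x)

lemma Desc.ext {l : I} {T : TEnd (W l) C.Y} {θ θ' : Module.End (K l) (R.V l)}
    (h : Desc R l T θ) (h' : Desc R l T θ') : θ = θ' := by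
  ext y
  obtain ⟨x, hx, rfl⟩ := R.u_surj l y
  rw [← h.2 x hx, h'.2 x hx]

lemma Desc.mul {l : I} {T T' : TEnd (W l) C.Y} {θ θ' : Module.End (K l) (R.V l)}
    (h : Desc R l T θ) (h' : Desc R l T' θ') : Desc R l (T ∘ₗ T') (θ * θ') := by
  refine ⟨fun x hx => h.1 _ (h'.1 x hx), fun x hx => ?_⟩
  rw [LinearMap.comp_apply, h.2 _ (h'.1 x hx), h'.2 x hx]
  rfl

lemma Desc.phi (l : I) : Desc R l (R.F l) (R.φ l) := by
  refine ⟨fun x hx => ?_, R.u_F l⟩
  rw [← R.F_chain.comm', hx, map_zero]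

lemma Desc.nu (l : I) : Desc R l (R.N l) (R.ν l) := by
  refine ⟨fun x hx => ?_, R.u_N l⟩
  rw [← R.N_chain.comm', hx, map_zero]

/-- degree projectors preserve cocycles -/
lemma d_degProj (C : MComplex W) (l : I) (w : ℤ) (x : Tot (W l) C.Y) :
    C.d l (degProj (W l) C.Y C.pos C.tw w x) =
      degProj (W l) C.Y C.pos C.tw (w + 1) (C.d l x) :=
  LinearMap.congr_fun (comp_degProj (W l) C.Y C.pos C.tw (C.d_bidegree l) w) x

lemma d_posProj (C : MComplex W) (l : I) (p : ℤ) (x : Tot (W l) C.Y) :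
    C.d l (posProj (W l) C.Y C.pos p x) =
      posProj (W l) C.Y C.pos (p + 1) (C.d l x) :=
  LinearMap.congr_fun (comp_posProj (W l) C.Y C.pos C.tw (C.d_bidegree l) p) x

lemma exists_desc {l : I} {T : TEnd (W l) C.Y} (hT : ∀ x, C.d l x = 0 → C.d l (T x) = 0)
    (hr : ∀ x ∈ LinearMap.range (C.d l), T x ∈ LinearMap.range (C.d l))
    (hc : ∀ x, T (R.e l x) = R.e l (T x)) : ∃ θ, Desc R l T θ := by
  obtain ⟨θ, hθ⟩ := exists_theta (C.d l) T (R.u l) (R.u_surj l) hT (by
    intro x hx hu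
    rw [R.u_ker l _ (hT x hx), ← hc]
    exact hr _ ((R.u_ker l x hx).1 hu))
  exact ⟨θ, hT, hθ⟩

lemma e_degProj (l : I) (w : ℤ) (x : Tot (W l) C.Y) :
    degProj (W l) C.Y C.pos C.tw w (R.e l x) = R.e l (degProj (W l) C.Y C.pos C.tw w x) := by
  have := LinearMap.congr_fun
    (comp_degProj (W l) C.Y C.pos C.tw (R.e_chain.bidegree l) w) x
  rw [add_zero] at this
  exact this.symm

lemma e_posProj (l : I) (p : ℤ) (x : Tot (W l) C.Y) :
    posProj (W l) C.Y C.pos p (R.e l x) = R.e l (posProj (W l) C.Y C.pos p x) := by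
  have := LinearMap.congr_fun
    (comp_posProj (W l) C.Y C.pos C.tw (R.e_chain.bidegree l) p) x
  rw [add_zero] at this
  exact this.symm

lemma exists_desc_deg (l : I) (w : ℤ) :
    ∃ θ, Desc R l (degProj (W l) C.Y C.pos C.tw w) θ := by
  refine exists_desc R ?_ ?_ (e_degProj R l w)
  · intro x hx
    rw [d_degProj, hx, map_zero]
  · rintro _ ⟨x, rfl⟩
    have := d_degProj C l (w - 1) x
    rw [sub_add_cancel] at this
    rw [← this]
    exact ⟨_, rfl⟩

lemma exists_desc_pos (l : I) (p : ℤ) :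
    ∃ θ, Desc R l (posProj (W l) C.Y C.pos p) θ := by
  refine exists_desc R ?_ ?_ (e_posProj R l p)
  · intro x hx
    rw [d_posProj, hx, map_zero]
  · rintro _ ⟨x, rfl⟩
    have := d_posProj C l (p - 1) x
    rw [sub_add_cancel] at this
    rw [← this]
    exact ⟨_, rfl⟩

/-- the degree projector on the realisation -/
def Realisation.pdeg (l : I) (w : ℤ) : Module.End (K l) (R.V l) :=
  Classical.choose (exists_desc_deg R l w)

lemma Realisation.desc_pdeg (l : I) (w : ℤ) :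
    Desc R l (degProj (W l) C.Y C.pos C.tw w) (R.pdeg l w) :=
  Classical.choose_spec (exists_desc_deg R l w)

/-- the position projector on the realisation -/
def Realisation.ppos (l : I) (p : ℤ) : Module.End (K l) (R.V l) :=
  Classical.choose (exists_desc_pos R l p)

lemma Realisation.desc_ppos (l : I) (p : ℤ) :
    Desc R l (posProj (W l) C.Y C.pos p) (R.ppos l p) :=
  Classical.choose_spec (exists_desc_pos R l p)

lemma Realisation.range_pdeg (l : I) (w : ℤ) : LinearMap.range (R.pdeg l w) = R.deg l w := by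
  ext y
  constructor
  · rintro ⟨y, rfl⟩
    obtain ⟨x, hx, rfl⟩ := R.u_surj l y
    rw [← (R.desc_pdeg l w).2 x hx]
    exact ⟨_, ⟨(R.desc_pdeg l w).1 x hx, degProj_mem _ _ _ _ _ _⟩, rfl⟩
  · rintro ⟨x, ⟨hx, hx'⟩, rfl⟩
    refine ⟨R.u l x, ?_⟩
    rw [← (R.desc_pdeg l w).2 x hx, degProj_of_mem _ _ _ _ hx']

lemma Realisation.range_pgr (l : I) (w p : ℤ) :
    LinearMap.range (R.pdeg l w * R.ppos l p) = R.gr l w p := by
  have hD := (R.desc_pdeg l w).mul R (R.desc_ppos l p)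
  ext y
  constructor
  · rintro ⟨y, rfl⟩
    obtain ⟨x, hx, rfl⟩ := R.u_surj l y
    rw [← hD.2 x hx]
    refine ⟨_, ⟨hD.1 x hx, degProj_mem _ _ _ _ _ _, ?_⟩, rfl⟩
    rw [degProj_comm_posProj]
    exact posProj_mem _ _ _ _ _
  · rintro ⟨x, ⟨hx, hx', hx''⟩, rfl⟩
    refine ⟨R.u l x, ?_⟩
    rw [← hD.2 x hx, LinearMap.comp_apply, posProj_of_mem _ _ _ hx'', degProj_of_mem _ _ _ _ hx']

end

end Pool.Agent.H62A
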