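import Pool.Agent.W_a3c811_h62.LA.Stage
import Pool.Agent.W_MP_a3c811_h79.Bound

/-! Divisibility of the polynomials of the inertia invariants. -/

noncomputable section

namespace Pool.Agent.H62A

open Module Polynomial

universe uA uI v w

variable {A : Type uA} [Ring A] [Algebra ℚ A] {I : Type uI} {K : I → Type v}
    [∀ l, Field (K l)] [∀ l, CharZero (K l)] {V : I → Type w} [∀ l, AddCommGroup (V l)]
    [∀ l, Module (K l) (V l)] [∀ l, FiniteDimensional (K l) (V l)]

namespace Stage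

variable {T : TS A K V} (G : Stage T)

theorem exists_bound [Nonempty I] {l0 : I} (h0 : T.Pure l0) (w : ℤ) :
    ∃ Q : ℚ[X],
      (∀ l, T.Pure l → CharpolyOn (T.ρ l G.f)
        (LinearMap.range (T.ρ l (G.g w)) ⊓ LinearMap.ker (T.ρ l G.n)) Q) ∧
      (G.WM l0 → ∀ l, CharpolyOn (T.ρ l G.f)
        (LinearMap.range (T.ρ l (G.g w)) ⊓ LinearMap.ker (T.ρ l G.n)) Q) ∧
      ∀ l, CharpolyDvd (T.ρ l G.f)
        (LinearMap.range (T.ρ l (G.g w)) ⊓ LinearMap.ker (T.ρ l G.n)) Q := by
  exact Pool.Agent.H79R.exists_bound G h0 w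

end Stage

end Pool.Agent.H62A
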