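import Pool.Agent.W_a3c811_h62.StDefs

/-! Definitions for the statement: the theories in which homological and numerical equivalence are
known to agree on the products of the strata. -/

noncomputable section

namespace Pool.Agent.H62A

open Polynomial Pool.Agent.WeilH_h6 Pool.Agent.WeilH_h6.VarClass Pool.Agent.H62D

universe u v w

/-- The field `F` is admissible for the set of primes `Λ` and the polynomials `P i`: it embeds in
`ℚ_m` for some `m ∈ Λ`, or all complex roots of the `P i` are real. -/
def Admissible {r : ℕ} (P : Fin r → ℚ[X]) (Λ : Set ℕ) (F : Type v) [Field F] : Prop :=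
  (∃ (m : ℕ) (_ : Fact m.Prime), m ∈ Λ ∧ Nonempty (F →+* ℚ_[m])) ∨
    ∀ i, ∀ z : ℂ, aeval z (P i) = 0 → starRingEnd ℂ z = z

variable {k : Type u} [Field k] {𝒱 : VarClass k} {I : Type} {K : I → Type v} [∀ l, Field (K l)]
  [∀ l, CharZero (K l)] {W : ∀ l, Weil.{u, v, w} 𝒱 (K l)}

/-- The complex `C` is good at `l`: either the standard conjecture `D` holds in the theory `l` for
the products of two strata, or the field `K l` is admissible and all strata are generated
(products and algebraic retracts) by varieties of conjugation type `(P i, g i)`. -/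
def GoodAt {r : ℕ} (P g : Fin r → ℚ[X]) (Λ : Set ℕ) (C : MComplex W) (l : I) : Prop :=
  (∀ a b, (W l).HomEqNum ((C.Y a).prod (C.Y b))) ∨
    (Admissible P Λ (K l) ∧
      ∀ a, Generated (W l) (fun Y => ∃ i, ConjType (W l) (P i) (g i) Y) (C.Y a))

end Pool.Agent.H62A
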