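import Pool.Agent.W_a3c811_h62.Joint
import Pool.Agent.WeilH_h6.Ext
import Pool.Agent.WeilH_h6.NT

/-! Joint homomorphisms: families of maps `H(X) → H(Y)` given by one correspondence. -/

noncomputable section

namespace Pool.Agent.H62A

open Polynomial Pool.Agent.WeilH_h6 Pool.Agent.WeilH_h6.VarClass Pool.Agent.H62D

universe u v w

variable {k : Type u} [Field k] {𝒱 : VarClass k}

section single

variable {K : Type v} [Field K] (W : Weil.{u, v, w} 𝒱 K)

/-- The projector of `H(X)` onto `H^n(X)`. -/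
def kap (X : 𝒱.Obj) (n : ℕ) : W.H X →ₗ[K] W.H X :=
  (DirectSum.toModule K ℕ (W.H X) fun i => if i = n then (W.grad X i).subtype else 0) ∘ₗ
    (LinearEquiv.ofBijective (DirectSum.coeLinearMap (W.grad X)) (W.isInternal X)).symm.toLinearMap

/-- `kap X n` is the identity on `H^n(X)` and zero on `H^i(X)`, `i ≠ n` (see the proof of
`Weil.par_apply`). -/
lemma kap_apply {X : 𝒱.Obj} {i n : ℕ} {x : W.H X} (hx : x ∈ W.grad X i) :
    kap W X n x = if i = n then x else 0 := by
  have h : (LinearEquiv.ofBijective (DirectSum.coeLinearMap (W.grad X)) (W.isInternal X)).symm x =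
      DirectSum.lof K ℕ (fun i => W.grad X i) i ⟨x, hx⟩ := by
    rw [LinearEquiv.symm_apply_eq]
    change x = DirectSum.coeLinearMap (W.grad X) _
    rw [DirectSum.coeLinearMap_lof]
  change (DirectSum.toModule K ℕ (W.H X) fun i => if i = n then (W.grad X i).subtype else 0)
    ((LinearEquiv.ofBijective (DirectSum.coeLinearMap (W.grad X)) (W.isInternal X)).symm x) = _
  rw [h, DirectSum.toModule_lof]
  by_cases hin : i = n
  · rw [if_pos hin, if_pos hin]; rfl
  · rw [if_neg hin, if_neg hin]; rfl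

lemma kap_mem {X : 𝒱.Obj} (n : ℕ) (x : W.H X) : kap W X n x ∈ W.grad X n := by
  refine W.hom_induction (P := fun x => kap W X n x ∈ W.grad X n) (by simp) ?_ ?_ x
  · intro x y hx hy
    rw [map_add]
    exact Submodule.add_mem _ hx hy
  · intro i x hx
    rw [kap_apply W hx]
    split_ifs with h
    · rw [← h]; exact hx
    · exact Submodule.zero_mem _

/-- Every class is the sum of its homogeneous components (`Weil.hom_induction`, `Weil.vanish`). -/
lemma sum_kap {X : 𝒱.Obj} (x : W.H X) :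
    ∑ n ∈ Finset.range (2 * X.dim + 1), kap W X n x = x := by
  refine W.hom_induction (P := fun x => ∑ n ∈ Finset.range (2 * X.dim + 1), kap W X n x = x)
    (by simp) ?_ ?_ x
  · intro x y hx hy
    simp only [map_add, Finset.sum_add_distrib]
    rw [hx, hy]
  · intro i x hx
    by_cases hi : i ∈ Finset.range (2 * X.dim + 1)
    · rw [Finset.sum_congr rfl fun n _ => kap_apply W hx, Finset.sum_ite_eq, if_pos hi]
    · have h0 : x = 0 := by
        have h2 : W.grad X i = ⊥ := W.vanish X i (by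
          rw [Finset.mem_range] at hi; omega)
        rw [h2] at hx
        simpa using hx
      rw [h0]
      simp

lemma par_eq_sum {X : 𝒱.Obj} :
    W.par X = ∑ n ∈ Finset.range (2 * X.dim + 1), ((-1 : K) ^ n) • kap W X n := by
  ext x
  rw [LinearMap.sum_apply]
  refine W.hom_induction (P := fun x => W.par X x =
    ∑ n ∈ Finset.range (2 * X.dim + 1), (((-1 : K) ^ n) • kap W X n) x) (by simp) ?_ ?_ x
  · intro x y hx hy
    simp only [map_add, Finset.sum_add_distrib]
    rw [hx, hy]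
  · intro i x hx
    rw [W.par_apply hx]
    have e : ∀ n ∈ Finset.range (2 * X.dim + 1), (((-1 : K) ^ n) • kap W X n) x =
        if i = n then ((-1 : K) ^ n) • x else 0 := by
      intro n _
      rw [LinearMap.smul_apply, kap_apply W hx]
      split_ifs <;> simp
    rw [Finset.sum_congr rfl e, Finset.sum_ite_eq]
    split_ifs with hi
    · rfl
    · have h0 : x = 0 := by
        have h2 : W.grad X i = ⊥ := W.vanish X i (by
          rw [Finset.mem_range] at hi; omega)
        rw [h2] at hx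
        simpa using hx
      rw [h0]
      simp

/-- The trace is invariant under the swap `X × Y ≅ Y × X` (Künneth induction on homogeneous
elements; `Weil.pull_swapM`, `Weil.p2_mul_p1`, `Weil.tr_prod`; a nonzero trace needs even degrees,
see `Weil.tr_pull_assocM` for the pattern). -/
lemma tr_swap {X Y : 𝒱.Obj} (a : W.H (Y.prod X)) :
    W.tr (X.prod Y) (W.pull (Weil.swapM X Y) a) = W.tr (Y.prod X) a := by
  refine W.kunneth_induction Y X (P := fun a => W.tr (X.prod Y) (W.pull (Weil.swapM X Y) a) =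
    W.tr (Y.prod X) a) ?_ ?_ a
  · intro a b ha hb; rw [map_add, map_add, map_add, ha, hb]
  intro y x
  rw [W.pull_swapM, W.tr_prod]
  refine W.hom_induction (P := fun y => W.tr (X.prod Y) (W.p2 X Y y * W.p1 X Y x) =
    W.tr Y y * W.tr X x) (by simp) ?_ ?_ y
  · intro a b ha hb
    simp only [map_add, add_mul] at ha hb ⊢
    rw [ha, hb]
  intro j y hy
  refine W.hom_induction (P := fun x => W.tr (X.prod Y) (W.p2 X Y y * W.p1 X Y x) =
    W.tr Y y * W.tr X x) (by simp) ?_ ?_ x
  · intro a b ha hb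
    simp only [map_add, mul_add] at ha hb ⊢
    rw [ha, hb]
  intro i x hx
  rw [W.p2_mul_p1 hx hy]
  by_cases hj : j = 2 * Y.dim
  · subst hj
    have h : Even (i * (2 * Y.dim)) := ⟨i * Y.dim, by ring⟩
    rw [h.neg_one_pow, one_mul, W.tr_prod, mul_comm]
  · have h0 := W.tr_grad Y j y hy hj
    rcases Nat.even_or_odd (i * j) with h | h
    · rw [h.neg_one_pow, one_mul, W.tr_prod, mul_comm]
    · rw [h.neg_one_pow, neg_one_mul, map_neg, W.tr_prod, h0]
      simp

/-- The pairing of two correspondences as a trace: for `β` algebraic on `X × Y`, and `β'` its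
transpose on `Y × X`, the supertrace of `act β' ∘ act α` on `H(X)` is `Tr (α β)`.

Proof. Both sides are linear in `α`, so by `Weil.kunneth_induction` and `Weil.hom_induction` let
`α = p1 x * p2 y` with `x ∈ H^i(X)`, `y ∈ H^j(Y)`.  As in the proof of `Weil.trace_act`:
`act α v = ((-1)^(i' j) * Tr (x v)) • y` for `v ∈ H^{i'}(X)`, and `Tr (x v) ≠ 0` only for
`i' + i = 2 dim X`, so `act α = (-1)^(i j) • (Tr (x ·)).smulRight y`.  Hence the trace on the left
is `(-1)^(i j) Tr (x * par (act β' y))`.  Write `z = act β' y`.  For every `w`,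
`Tr (z * w) = Tr_{Y × X} (β' * (p1 y * p2 w))` (`Weil.tr_act`) `= Tr_{X × Y} (β * (p2 y * p1 w))`
(`tr_swap`, `Weil.pull_comp`: pull-back by `swapM Y X` is an algebra morphism exchanging `p1` and
`p2`).  Take `w = x`: `Tr (z * x) = Tr (β * (p2 y * p1 x)) = (-1)^(i j) Tr (β * (p1 x * p2 y))
= (-1)^(i j) Tr (α * β)` (`Weil.p2_mul_p1`, `Weil.central`).  Finally `Tr (x * par z) =
Tr (z * x)`: this is super-commutativity of the trace form, `Weil.tr_comm` in `WeilH_h6/NT.lean`
(or `hom_induction` on `z`: the component of `z` of degree `n` contributes only for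
`n + i = 2 dim X`, and then `x * z_n = (-1)^(i n) z_n * x` and `par z_n = (-1)^n z_n`, `i n ≡ n`
modulo `2`). -/
lemma trace_pairing {X Y : 𝒱.Obj} (α : W.H (X.prod Y)) {β : W.H (X.prod Y)}
    (hβ : β ∈ W.algSpan (X.prod Y)) :
    LinearMap.trace K (W.H X)
      (W.par X ∘ₗ W.act (W.pull (Weil.swapM Y X) β) ∘ₗ W.act α) =
      W.tr (X.prod Y) (α * β) := by
  refine W.kunneth_induction X Y (P := fun α => LinearMap.trace K (W.H X)
      (W.par X ∘ₗ W.act (W.pull (Weil.swapM Y X) β) ∘ₗ W.act α) =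
      W.tr (X.prod Y) (α * β)) ?_ ?_ α
  · intro a b ha hb
    rw [W.act_add, LinearMap.comp_add, LinearMap.comp_add, map_add, ha, hb, add_mul, map_add]
  intro x y
  rw [← W.central hβ]
  have hzero : W.act (0 : W.H (X.prod Y)) = 0 := by
    have := W.act_smul (0 : K) (0 : W.H (X.prod Y)); simpa using this
  refine W.hom_induction (P := fun y => LinearMap.trace K (W.H X)
      (W.par X ∘ₗ W.act (W.pull (Weil.swapM Y X) β) ∘ₗ W.act (W.p1 X Y x * W.p2 X Y y)) =
      W.tr (X.prod Y) (β * (W.p1 X Y x * W.p2 X Y y))) (by simp [hzero]) ?_ ?_ y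
  · intro a b ha hb
    simp only [map_add, mul_add, W.act_add, LinearMap.comp_add] at ha hb ⊢
    rw [ha, hb]
  intro j y hy
  refine W.hom_induction (P := fun x => LinearMap.trace K (W.H X)
      (W.par X ∘ₗ W.act (W.pull (Weil.swapM Y X) β) ∘ₗ W.act (W.p1 X Y x * W.p2 X Y y)) =
      W.tr (X.prod Y) (β * (W.p1 X Y x * W.p2 X Y y))) (by simp [hzero]) ?_ ?_ x
  · intro a b ha hb
    simp only [map_add, add_mul, mul_add, W.act_add, LinearMap.comp_add] at ha hb ⊢
    rw [ha, hb]
  intro i x hx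
  have hact : ∀ i' (v : W.H X), v ∈ W.grad X i' → W.act (W.p1 X Y x * W.p2 X Y y) v =
      ((-1 : K) ^ (i' * j) * W.tr X (x * v)) • y := by
    intro i' v hv
    refine W.ext_tr fun w => ?_
    have e : W.p1 X Y x * W.p2 X Y y * (W.p1 X Y v * W.p2 X Y w) =
        (-1) ^ (i' * j) * (W.p1 X Y (x * v) * W.p2 X Y (y * w)) := by
      rw [mul_assoc, ← mul_assoc (W.p2 X Y y), W.p2_mul_p1 hv hy, map_mul, map_mul]
      rcases neg_one_pow_eq_or (W.H (X.prod Y)) (i' * j) with h | h <;> rw [h] <;> noncomm_ring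
    rw [W.tr_act, e, smul_mul_assoc, map_smul]
    rcases Nat.even_or_odd (i' * j) with h | h
    · rw [h.neg_one_pow, h.neg_one_pow, one_mul, one_mul, W.tr_prod]; rfl
    · rw [h.neg_one_pow, h.neg_one_pow, neg_one_mul, map_neg, W.tr_prod]
      simp
  have hz : ∀ w : W.H X, W.tr X (W.act (W.pull (Weil.swapM Y X) β) y * w) =
      W.tr (X.prod Y) (β * (W.p2 X Y y * W.p1 X Y w)) := by
    intro w
    have e1 : W.pull (Weil.swapM Y X) (W.p2 X Y y) = W.p1 Y X y := by
      rw [← W.pull_comp, Obj.lift_snd]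
    have e2 : W.pull (Weil.swapM Y X) (W.p1 X Y w) = W.p2 Y X w := by
      rw [← W.pull_comp, Obj.lift_fst]
    rw [W.tr_act, ← e1, ← e2, ← map_mul, ← map_mul, tr_swap]
  have hzx := hz x
  rw [W.p2_mul_p1 hx hy] at hzx
  set z : W.H X := W.act (W.pull (Weil.swapM Y X) β) y with hzdef
  have hsgn : W.tr X (z * x) = ((-1 : K) ^ (i * j)) *
      W.tr (X.prod Y) (β * (W.p1 X Y x * W.p2 X Y y)) := by
    rw [hzx]
    rcases Nat.even_or_odd (i * j) with h | h
    · rw [h.neg_one_pow, h.neg_one_pow, one_mul, one_mul]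
    · rw [h.neg_one_pow, h.neg_one_pow, neg_one_mul, mul_neg, map_neg, neg_one_mul]
  rcases Nat.even_or_odd j with hj | hj
  · have h2 : W.par X ∘ₗ W.act (W.pull (Weil.swapM Y X) β) ∘ₗ
        W.act (W.p1 X Y x * W.p2 X Y y) =
        (W.tr X ∘ₗ LinearMap.mulLeft K x).smulRight (W.par X z) := by
      ext v
      refine W.hom_induction (P := fun v => (W.par X ∘ₗ W.act (W.pull (Weil.swapM Y X) β) ∘ₗ
        W.act (W.p1 X Y x * W.p2 X Y y)) v =
        ((W.tr X ∘ₗ LinearMap.mulLeft K x).smulRight (W.par X z)) v) (by simp) ?_ ?_ v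
      · intro a b ha hb; rw [map_add, map_add, ha, hb]
      intro i' v hv
      rw [LinearMap.comp_apply, LinearMap.comp_apply, hact i' v hv, map_smul, map_smul,
        (hj.mul_left i').neg_one_pow, one_mul]
      rfl
    rw [h2, LinearMap.trace_smulRight]
    have h3 : (W.tr X ∘ₗ LinearMap.mulLeft K x) (W.par X z) = W.tr X (z * x) := by
      rw [W.tr_comm z x]
      rfl
    rw [h3, hsgn, (hj.mul_left i).neg_one_pow, one_mul]
  · have h2 : W.par X ∘ₗ W.act (W.pull (Weil.swapM Y X) β) ∘ₗ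
        W.act (W.p1 X Y x * W.p2 X Y y) =
        (W.tr X ∘ₗ LinearMap.mulLeft K x ∘ₗ W.par X).smulRight (W.par X z) := by
      ext v
      refine W.hom_induction (P := fun v => (W.par X ∘ₗ W.act (W.pull (Weil.swapM Y X) β) ∘ₗ
        W.act (W.p1 X Y x * W.p2 X Y y)) v =
        ((W.tr X ∘ₗ LinearMap.mulLeft K x ∘ₗ W.par X).smulRight (W.par X z)) v) (by simp) ?_ ?_ v
      · intro a b ha hb; rw [map_add, map_add, ha, hb]
      intro i' v hv
      rw [LinearMap.comp_apply, LinearMap.comp_apply, hact i' v hv, map_smul, map_smul]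
      simp only [LinearMap.smulRight_apply, LinearMap.comp_apply, W.par_apply hv, map_smul,
        LinearMap.mulLeft_apply]
      rcases Nat.even_or_odd i' with hi | hi
      · rw [(hi.mul_right j).neg_one_pow, hi.neg_one_pow]; simp [hzdef]
      · rw [(hi.mul hj).neg_one_pow, hi.neg_one_pow]; simp [hzdef]
    rw [h2, LinearMap.trace_smulRight]
    have h3 : (W.tr X ∘ₗ LinearMap.mulLeft K x ∘ₗ W.par X) (W.par X z) = W.tr X (x * z) := by
      simp
    rw [h3, W.tr_comm x z, W.par_apply hx, mul_smul_comm, map_smul, hsgn, smul_eq_mul]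
    rcases Nat.even_or_odd i with hi | hi
    · rw [(hi.mul_right j).neg_one_pow, hi.neg_one_pow, one_mul, one_mul]
    · rw [(hi.mul hj).neg_one_pow, hi.neg_one_pow]
      ring

end single

section family

variable {I : Type} {K : I → Type v} [∀ l, Field (K l)] [∀ l, CharZero (K l)]
  (W : ∀ l, Weil.{u, v, w} 𝒱 (K l))

/-- The families of maps `H(X) → H(Y)` which are given by a joint class on `X × Y`. -/
def JHom (X Y : 𝒱.Obj) : AddSubgroup (∀ l, (W l).H X →ₗ[K l] (W l).H Y) where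
  carrier := {φ | ∃ x ∈ JC W (X.prod Y), ∀ l, φ l = (W l).act (x l)}
  add_mem' := by
    rintro φ ψ ⟨x, hx, hφ⟩ ⟨y, hy, hψ⟩
    exact ⟨x + y, add_mem hx hy, fun l => by rw [Pi.add_apply, hφ, hψ, Pi.add_apply, Weil.act_add]⟩
  zero_mem' := ⟨0, zero_mem _, fun l => by
    have := (W l).act_smul (0 : K l) (0 : (W l).H (X.prod Y)); simpa using this.symm⟩
  neg_mem' := by
    rintro φ ⟨x, hx, hφ⟩
    refine ⟨-x, neg_mem hx, fun l => ?_⟩
    have h0 := (W l).act_smul (0 : K l) (0 : (W l).H (X.prod Y))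
    have h1 := (W l).act_add (-x l) (x l)
    simp only [zero_smul, neg_add_cancel] at h0 h1
    rw [h0] at h1
    rw [Pi.neg_apply, hφ, Pi.neg_apply]
    exact (eq_neg_of_add_eq_zero_left h1.symm).symm

lemma smul_mem_JHom {X Y : 𝒱.Obj} (r : ℚ) {φ : ∀ l, (W l).H X →ₗ[K l] (W l).H Y}
    (hφ : φ ∈ JHom W X Y) : (fun l => (r : K l) • φ l) ∈ JHom W X Y := by
  obtain ⟨x, hx, h⟩ := hφ
  exact ⟨_, smul_mem_JC W r hx, fun l => by
    show (r : K l) • φ l = _
    rw [h, Weil.act_smul]⟩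

/-- The projectors onto `H^n(X)` are joint homomorphisms if they are given by one correspondence
(`Weil.tr_act`, `Weil.ext_tr`, `kap_apply`, `Weil.hom_induction`). -/
lemma kap_mem_JHom {X : 𝒱.Obj} {n : ℕ} (h : KunnethMotivic W X n) :
    (fun l => kap (W l) X n) ∈ JHom W X X := by
  obtain ⟨c, hc⟩ := h
  refine ⟨_, clT_mem_JC W c, fun l => ?_⟩
  ext v
  refine (W l).hom_induction (P := fun v => kap (W l) X n v = (W l).act (clT (W l) c) v)
    (by simp) ?_ ?_ v
  · intro a b ha hb; rw [map_add, map_add, ha, hb]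
  intro i x hx
  refine (W l).ext_tr fun w => ?_
  rw [Weil.tr_act]
  have h1 := hc l i x w hx
  rw [kap_apply (W l) hx]
  by_cases hin : i = n
  · rw [if_pos hin]
    rw [if_pos hin] at h1
    exact h1.symm
  · rw [if_neg hin, zero_mul, map_zero]
    rw [if_neg hin] at h1
    exact h1.symm

/-- Joint homomorphisms map joint classes to algebraic classes; in particular they are algebraic. -/
lemma JHom_algHom {X Y : 𝒱.Obj} {φ : ∀ l, (W l).H X →ₗ[K l] (W l).H Y} (hφ : φ ∈ JHom W X Y)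
    (l : I) : φ l ∈ (W l).algHom X Y := by
  obtain ⟨x, hx, h⟩ := hφ
  rw [h]
  exact (W l).act_mem_algHom.2 (JC_algSpan W hx l)

lemma par_mem_JHom {X : 𝒱.Obj} (h : ∀ n, KunnethMotivic W X n) :
    (fun l => (W l).par X) ∈ JHom W X X := by
  have e : (fun l => (W l).par X) = ∑ n ∈ Finset.range (2 * X.dim + 1),
      (fun l => ((((-1 : ℚ) ^ n : ℚ)) : K l) • kap (W l) X n) := by
    funext l
    rw [Finset.sum_apply, par_eq_sum]
    refine Finset.sum_congr rfl fun n _ => ?_
    push_cast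
    rfl
  rw [e]
  exact AddSubgroup.sum_mem _ fun n _ => smul_mem_JHom W _ (kap_mem_JHom W (h n))

variable {W} (hW : Compatible W)

include hW

/-- The identity: `Weil.exists_diag` with `JC_push` and `JC_one`. -/
lemma id_mem_JHom (X : 𝒱.Obj) : (fun l => (LinearMap.id : (W l).H X →ₗ[K l] (W l).H X)) ∈
    JHom W X X := by
  obtain ⟨y, hy, h⟩ := JC_push hW (Weil.diag X) (JC_one W X)
  refine ⟨y, hy, fun l => ?_⟩
  ext v
  refine (W l).ext_tr fun w => ?_
  rw [Weil.tr_act, h, one_mul, map_mul ((W l).pull (Weil.diag X)), Weil.pull_diag_p1,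
    Weil.pull_diag_p2]
  rfl

open CategoryTheory in
/-- Composition: the proof of `Weil.comp_mem_algHom` with `JC_pull`, `JC_mul`, `JC_push`. -/
lemma comp_mem_JHom {X Y Z : 𝒱.Obj} {φ : ∀ l, (W l).H X →ₗ[K l] (W l).H Y}
    {ψ : ∀ l, (W l).H Y →ₗ[K l] (W l).H Z} (hφ : φ ∈ JHom W X Y) (hψ : ψ ∈ JHom W Y Z) :
    (fun l => ψ l ∘ₗ φ l) ∈ JHom W X Z := by
  obtain ⟨α, hα, hφ⟩ := hφ
  obtain ⟨β, hβ, hψ⟩ := hψ
  let P := X.prod (Y.prod Z)
  have hA := JC_pull hW (Weil.assocM X Y Z ≫ Obj.fst (X.prod Y) Z) hα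
  have hB := JC_pull hW (Obj.snd X (Y.prod Z)) hβ
  let f : P ⟶ X.prod Z := Obj.lift (Obj.fst X (Y.prod Z)) (Obj.snd X (Y.prod Z) ≫ Obj.snd Y Z)
  obtain ⟨γ, hγ, h⟩ := JC_push hW f (JC_mul hW hA hB)
  refine ⟨γ, hγ, fun l => ?_⟩
  show ψ l ∘ₗ φ l = _
  rw [hφ l, hψ l]
  ext v
  refine (W l).ext_tr fun w => ?_
  rw [Weil.tr_act, h]
  have hβl : β l ∈ (W l).algSpan _ := JC_algSpan W hβ l
  have hBl : (W l).pull (Obj.snd X (Y.prod Z)) (β l) ∈ (W l).algSpan _ := JC_algSpan W hB l
  have hf : (W l).pull f ((W l).p1 X Z v * (W l).p2 X Z w) =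
      (W l).p1 X (Y.prod Z) v * (W l).p2 X (Y.prod Z) ((W l).p2 Y Z w) := by
    simp only [map_mul, ← (W l).pull_comp, f, Obj.lift_fst, Obj.lift_snd]
  have e : (W l).pull (Weil.assocM X Y Z ≫ Obj.fst (X.prod Y) Z) (α l) *
      (W l).pull (Obj.snd X (Y.prod Z)) (β l) *
      ((W l).p1 X (Y.prod Z) v * (W l).p2 X (Y.prod Z) ((W l).p2 Y Z w)) =
      (W l).pull (Weil.assocM X Y Z ≫ Obj.fst (X.prod Y) Z) (α l) *
      ((W l).p1 X (Y.prod Z) v * (W l).p2 X (Y.prod Z) (β l * (W l).p2 Y Z w)) := by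
    rw [mul_assoc, map_mul ((W l).p2 X (Y.prod Z)) (β l), ← mul_assoc
      ((W l).pull (Obj.snd X (Y.prod Z)) (β l)), (W l).central hBl, mul_assoc]
  rw [hf, e, (W l).tr_assoc_key, ← mul_assoc, ← (W l).central hβl, mul_assoc, ← (W l).tr_act]
  rfl

/-- The trace of a joint endomorphism is rational and does not depend on the theory: compose with
the parity operator twice (`Weil.par_par`, `comp_mem_JHom`, `par_mem_JHom`), use
`Weil.trace_act` and `JC_tr`, `JC_pull` for the diagonal. -/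
lemma JHom_trace {X : 𝒱.Obj} (h : ∀ n, KunnethMotivic W X n)
    {φ : ∀ l, (W l).H X →ₗ[K l] (W l).H X} (hφ : φ ∈ JHom W X X) :
    ∃ r : ℚ, ∀ l, LinearMap.trace (K l) ((W l).H X) (φ l) = (r : K l) := by
  obtain ⟨x, hx, hx'⟩ := comp_mem_JHom hW hφ (par_mem_JHom W h)
  obtain ⟨r, hr⟩ := JC_tr W (JC_pull hW (Weil.diag X) hx)
  refine ⟨r, fun l => ?_⟩
  have e : φ l = (W l).par X ∘ₗ (W l).act (x l) := by
    rw [← hx' l]
    ext v
    rw [LinearMap.comp_apply, LinearMap.comp_apply, Weil.par_par]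
  rw [e, Weil.trace_act, hr]

/-- If `D(X × Y)` holds in the theory `l0`, then a joint homomorphism `φ : H(X) → H(Y)` such that
`trace (ψ ∘ φ) = 0` in the theory `l0` for all joint homomorphisms `ψ : H(Y) → H(X)` is zero in the
theory `l0`.

Proof. `φ l = act (x l)`, `x l = clT (W l) z` with a cycle `z`.  For a homogeneous cycle `z'` of
codimension `j` on `X × Y` let `β l = (W l).cl z'` (a joint class) and
`ψ l = par ∘ act (swap^* β l)`, a joint homomorphism.  By `trace_pairing`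
`0 = trace (ψ l0 ∘ φ l0) = Tr (x l0 * cl z')`.  For `i + j = dim (X × Y)` only the component
`z i` of `z` contributes (degrees, `Weil.tr_grad`), so `z i` is numerically trivial in the theory
`l0`, hence `cl (z i) = 0` by `D(X × Y)`; for `i ≤ dim` all `i` are covered, so `x l0 = 0`. -/
lemma JHom_eq_zero {X Y : 𝒱.Obj} (h : ∀ n, KunnethMotivic W X n) {l0 : I}
    (hD : (W l0).HomEqNum (X.prod Y)) {φ : ∀ l, (W l).H X →ₗ[K l] (W l).H Y}
    (hφ : φ ∈ JHom W X Y) (htr : ∀ ψ ∈ JHom W Y X,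
      LinearMap.trace (K l0) ((W l0).H X) (ψ l0 ∘ₗ φ l0) = 0) : φ l0 = 0 := by
  obtain ⟨x, ⟨z, hz⟩, hφ⟩ := hφ
  have key : ∀ i ∈ Finset.range ((X.prod Y).dim + 1), (W l0).cl (z i) = 0 := by
    intro i _
    rw [← hD i (z i)]
    intro j z' hij
    have hβ : (fun l => (W l).pull (Weil.swapM Y X) ((W l).cl z')) ∈ JC W (Y.prod X) :=
      JC_pull hW (Weil.swapM Y X) (cl_mem_JC W z')
    have hψ0 : (fun l => (W l).act ((W l).pull (Weil.swapM Y X) ((W l).cl z'))) ∈ JHom W Y X :=
      ⟨_, hβ, fun l => rfl⟩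
    have hψ := comp_mem_JHom hW hψ0 (par_mem_JHom W h)
    have h1 := htr _ hψ
    rw [hφ l0] at h1
    have h2 : ((W l0).par X ∘ₗ (W l0).act ((W l0).pull (Weil.swapM Y X) ((W l0).cl z'))) ∘ₗ
        (W l0).act (x l0) = (W l0).par X ∘ₗ
        (W l0).act ((W l0).pull (Weil.swapM Y X) ((W l0).cl z')) ∘ₗ (W l0).act (x l0) := rfl
    rw [h2, trace_pairing (W l0) (x l0) ((W l0).cl_mem_algSpan z'), hz l0, clT, Finset.sum_mul,
      map_sum] at h1
    rw [Finset.sum_eq_single i] at h1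
    · exact h1
    · intro i' _ hi'
      exact (W l0).tr_grad _ _ _ ((W l0).mul_mem_grad ((W l0).cl_mem_grad (z i'))
        ((W l0).cl_mem_grad z')) (by omega)
    · intro hi
      exact absurd (Finset.mem_range.2 (by omega)) hi
  have hx0 : x l0 = 0 := by
    rw [hz l0, clT]
    exact Finset.sum_eq_zero key
  rw [hφ l0, hx0]
  have := (W l0).act_smul (0 : K l0) (0 : (W l0).H (X.prod Y))
  simpa using this

end family

end Pool.Agent.H62A
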