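import Pool.Agent.W_a3c811_h62.StDefs
import Pool.Agent.WeilH_h6.Corr

/-! Joint classes: families of classes in the theories `W l` given by the same cycle. -/

noncomputable section

namespace Pool.Agent.H62A

open Polynomial Pool.Agent.WeilH_h6 Pool.Agent.WeilH_h6.VarClass Pool.Agent.H62D

universe u v w

variable {k : Type u} [Field k] {𝒱 : VarClass k}

section single

variable {K : Type v} [Field K] (W : Weil.{u, v, w} 𝒱 K)

lemma cl_add [CharZero K] {X : 𝒱.Obj} {i : ℕ} (z z' : Cyc X i) :
    W.cl (z + z') = W.cl z + W.cl z' := by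
  unfold Weil.cl cycSum
  refine Finsupp.sum_add_index' (fun x => ?_) (fun x q q' => ?_)
  · rw [Rat.cast_zero, zero_smul]
  · rw [Rat.cast_add, add_smul]

lemma cl_zero {X : 𝒱.Obj} {i : ℕ} : W.cl (0 : Cyc X i) = 0 := by
  unfold Weil.cl cycSum
  exact Finsupp.sum_zero_index

lemma cl_smul [CharZero K] {X : 𝒱.Obj} {i : ℕ} (r : ℚ) (z : Cyc X i) :
    W.cl (r • z) = (r : K) • W.cl z := by
  unfold Weil.cl cycSum
  rw [Finsupp.sum_smul_index (fun x => by rw [Rat.cast_zero, zero_smul]), Finsupp.smul_sum]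
  refine Finsupp.sum_congr fun x _ => ?_
  rw [Rat.cast_mul, mul_smul]

/-- Cycles of codimension larger than the dimension have class zero (`Weil.cl_mem_grad` and
`Weil.vanish`). -/
lemma cl_eq_zero {X : 𝒱.Obj} {i : ℕ} (hi : X.dim < i) (z : Cyc X i) : W.cl z = 0 := by
  have h := W.cl_mem_grad z
  rw [W.vanish X (2 * i) (by omega)] at h
  simpa using h

lemma clT_add [CharZero K] {X : 𝒱.Obj} (z z' : TCyc X) :
    clT W (z + z') = clT W z + clT W z' := by
  unfold clT
  rw [← Finset.sum_add_distrib]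
  refine Finset.sum_congr rfl fun i _ => ?_
  rw [Pi.add_apply, cl_add]

lemma clT_smul [CharZero K] {X : 𝒱.Obj} (r : ℚ) (z : TCyc X) :
    clT W (r • z) = (r : K) • clT W z := by
  unfold clT
  rw [Finset.smul_sum]
  refine Finset.sum_congr rfl fun i _ => ?_
  rw [Pi.smul_apply, cl_smul]

/-- The class of a homogeneous cycle, as a cycle of mixed codimension. -/
lemma clT_single {X : 𝒱.Obj} {i : ℕ} (z : Cyc X i) : clT W (Pi.single i z) = W.cl z := by
  unfold clT
  by_cases hi : i ∈ Finset.range (X.dim + 1)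
  · rw [Finset.sum_eq_single_of_mem i hi, Pi.single_eq_same]
    intro j _ hj
    rw [Pi.single_eq_of_ne hj, cl_zero]
  · rw [cl_eq_zero W (by simpa using hi) z]
    refine Finset.sum_eq_zero fun j hj => ?_
    have hne : j ≠ i := fun h => hi (h ▸ hj)
    rw [Pi.single_eq_of_ne hne, cl_zero]

lemma clT_mem_algSpan {X : 𝒱.Obj} (z : TCyc X) : clT W z ∈ W.algSpan X :=
  Submodule.sum_mem _ fun i _ => W.cl_mem_algSpan (z i)

/-- The trace of the class of a cycle is the sum of the coefficients of its part of codimension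
`dim X`; in particular it is a rational number which only depends on the cycle. -/
lemma tr_clT [CharZero K] {X : 𝒱.Obj} (z : TCyc X) :
    W.tr X (clT W z) = (((z X.dim).sum fun _ q => q : ℚ) : K) := by
  unfold clT
  rw [map_sum, Finset.sum_eq_single_of_mem X.dim (by simp)]
  · unfold Weil.cl cycSum Finsupp.sum
    rw [map_sum, Rat.cast_sum]
    refine Finset.sum_congr rfl fun x _ => ?_
    rw [map_smul, W.tr_clPt X x.1 x.2, smul_eq_mul, mul_one]
  · intro j _ hj
    exact W.tr_grad X _ _ (W.cl_mem_grad (z j)) (by omega)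

end single

section family

variable {I : Type} {K : I → Type v} [∀ l, Field (K l)] [∀ l, CharZero (K l)]
  (W : ∀ l, Weil.{u, v, w} 𝒱 (K l))

/-- The group of the joint classes on `X`: the families of classes given by a cycle. -/
def JC (X : 𝒱.Obj) : AddSubgroup (∀ l, (W l).H X) where
  carrier := {x | ∃ z : TCyc X, ∀ l, x l = clT (W l) z}
  add_mem' := by
    rintro x y ⟨z, hz⟩ ⟨z', hz'⟩
    exact ⟨z + z', fun l => by rw [Pi.add_apply, hz, hz', clT_add]⟩
  zero_mem' := ⟨0, fun l => by
    have := clT_smul (W l) 0 (0 : TCyc X)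
    simpa using this.symm⟩
  neg_mem' := by
    rintro x ⟨z, hz⟩
    exact ⟨(-1 : ℚ) • z, fun l => by rw [Pi.neg_apply, hz, clT_smul]; simp⟩

lemma cl_mem_JC {X : 𝒱.Obj} {i : ℕ} (z : Cyc X i) : (fun l => (W l).cl z) ∈ JC W X :=
  ⟨Pi.single i z, fun l => (clT_single (W l) z).symm⟩

lemma clT_mem_JC {X : 𝒱.Obj} (z : TCyc X) : (fun l => clT (W l) z) ∈ JC W X :=
  ⟨z, fun _ => rfl⟩

lemma smul_mem_JC {X : 𝒱.Obj} (r : ℚ) {x : ∀ l, (W l).H X} (hx : x ∈ JC W X) :
    (fun l => (r : K l) • x l) ∈ JC W X := by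
  obtain ⟨z, hz⟩ := hx
  exact ⟨r • z, fun l => by simp only [hz, clT_smul]⟩

/-- Induction: a joint class is a finite sum of families of classes of homogeneous cycles. -/
lemma JC_induction {X : 𝒱.Obj} {P : (∀ l, (W l).H X) → Prop}
    (hadd : ∀ x y, P x → P y → P (x + y)) (h0 : P 0)
    (hm : ∀ (i : ℕ) (z : Cyc X i), P (fun l => (W l).cl z)) {x : ∀ l, (W l).H X}
    (hx : x ∈ JC W X) : P x := by
  obtain ⟨z, hz⟩ := hx
  have key : ∀ s : Finset ℕ, P (fun l => ∑ i ∈ s, (W l).cl (z i)) := by
    intro s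
    induction s using Finset.induction_on with
    | empty => exact h0
    | insert a s ha ih =>
      have h1 : (fun l => ∑ i ∈ insert a s, (W l).cl (z i)) =
          (fun l => (W l).cl (z a)) + fun l => ∑ i ∈ s, (W l).cl (z i) := by
        funext l
        rw [Pi.add_apply, Finset.sum_insert ha]
      rw [h1]
      exact hadd _ _ (hm a (z a)) ih
  have h2 : x = fun l => ∑ i ∈ Finset.range (X.dim + 1), (W l).cl (z i) := funext hz
  rw [h2]
  exact key _

lemma JC_algSpan {X : 𝒱.Obj} {x : ∀ l, (W l).H X} (hx : x ∈ JC W X) (l : I) :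
    x l ∈ (W l).algSpan X := by
  obtain ⟨z, hz⟩ := hx
  rw [hz]
  exact clT_mem_algSpan (W l) z

lemma JC_tr {X : 𝒱.Obj} {x : ∀ l, (W l).H X} (hx : x ∈ JC W X) :
    ∃ r : ℚ, ∀ l, (W l).tr X (x l) = (r : K l) := by
  obtain ⟨z, hz⟩ := hx
  exact ⟨_, fun l => by rw [hz, tr_clT]⟩

/-- The unit is a joint class: the proof of `Weil.one_mem_algSpan` gives a cycle of codimension `0`
which does not depend on the theory. -/
lemma JC_one (X : 𝒱.Obj) : (fun l => (1 : (W l).H X)) ∈ JC W X := by
  have := 𝒱.integral X.X X.mem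
  let x : X.X.left := genericPoint X.X.left
  have hx : Order.coheight x = 0 := by
    rw [Order.coheight_eq_zero]
    intro y _
    exact genericPoint_specializes y
  let z : Cyc X 0 := Finsupp.single (⟨x, by simpa using hx⟩ : {x : X.X.left //
      Order.coheight x = ((0 : ℕ) : ℕ∞)}) 1
  have h1 : ∀ l, (W l).cl z = 1 := by
    intro l
    unfold z Weil.cl cycSum
    rw [Finsupp.sum_single_index]
    · simp only [Rat.cast_one, one_smul]; exact (W l).clPt_generic X x hx
    · simp
  have h2 : (fun l => (1 : (W l).H X)) = fun l => (W l).cl z := funext fun l => (h1 l).symm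
  rw [h2]
  exact cl_mem_JC W z

variable {W} (hW : Compatible W)

include hW

lemma JC_mul {X : 𝒱.Obj} {x y : ∀ l, (W l).H X} (hx : x ∈ JC W X) (hy : y ∈ JC W X) :
    (fun l => x l * y l) ∈ JC W X := by
  refine JC_induction W (P := fun x => (fun l => x l * y l) ∈ JC W X) ?_ ?_ ?_ hx
  · intro a b ha hb
    have h1 : (fun l => (a + b) l * y l) = (fun l => a l * y l) + fun l => b l * y l := by
      funext l
      simp only [Pi.add_apply, add_mul]
    rw [h1]
    exact AddSubgroup.add_mem _ ha hb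
  · have h1 : (fun l => (0 : ∀ l, (W l).H X) l * y l) = 0 := by
      funext l
      simp only [Pi.zero_apply, zero_mul]
    rw [h1]
    exact AddSubgroup.zero_mem _
  · intro i z
    refine JC_induction W (P := fun y => (fun l => (W l).cl z * y l) ∈ JC W X) ?_ ?_ ?_ hy
    · intro a b ha hb
      have h1 : (fun l => (W l).cl z * (a + b) l) =
          (fun l => (W l).cl z * a l) + fun l => (W l).cl z * b l := by
        funext l
        simp only [Pi.add_apply, mul_add]
      rw [h1]
      exact AddSubgroup.add_mem _ ha hb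
    · have h1 : (fun l => (W l).cl z * (0 : ∀ l, (W l).H X) l) = 0 := by
        funext l
        simp only [Pi.zero_apply, mul_zero]
      rw [h1]
      exact AddSubgroup.zero_mem _
    · intro j z'
      obtain ⟨t, ht⟩ := hW.mul X i j z z'
      have h1 : (fun l => (W l).cl z * (W l).cl z') = fun l => (W l).cl t :=
        funext fun l => (ht l).symm
      rw [h1]
      exact cl_mem_JC W t

lemma JC_pull {X Y : 𝒱.Obj} (f : X ⟶ Y) {y : ∀ l, (W l).H Y} (hy : y ∈ JC W Y) :
    (fun l => (W l).pull f (y l)) ∈ JC W X := by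
  refine JC_induction W (P := fun y => (fun l => (W l).pull f (y l)) ∈ JC W X) ?_ ?_ ?_ hy
  · intro a b ha hb
    have h1 : (fun l => (W l).pull f ((a + b) l)) =
        (fun l => (W l).pull f (a l)) + fun l => (W l).pull f (b l) := by
      funext l
      simp only [Pi.add_apply, map_add]
    rw [h1]
    exact AddSubgroup.add_mem _ ha hb
  · have h1 : (fun l => (W l).pull f ((0 : ∀ l, (W l).H Y) l)) = 0 := by
      funext l
      simp only [Pi.zero_apply, map_zero]
    rw [h1]
    exact AddSubgroup.zero_mem _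
  · intro i z
    obtain ⟨t, ht⟩ := hW.pull X Y f i z
    have h1 : (fun l => (W l).pull f ((W l).cl z)) = fun l => (W l).cl t :=
      funext fun l => (ht l).symm
    rw [h1]
    exact cl_mem_JC W t

/-- Push-forward of joint classes: same proof as `Weil.push_algSpan`. -/
lemma JC_push {X Y : 𝒱.Obj} (f : X ⟶ Y) {x : ∀ l, (W l).H X} (hx : x ∈ JC W X) :
    ∃ y ∈ JC W Y, ∀ l (v : (W l).H Y),
      (W l).tr Y (y l * v) = (W l).tr X (x l * (W l).pull f v) := by
  refine JC_induction W (P := fun x => ∃ y ∈ JC W Y, ∀ l (v : (W l).H Y),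
      (W l).tr Y (y l * v) = (W l).tr X (x l * (W l).pull f v)) ?_ ?_ ?_ hx
  · rintro a b ⟨y, hy, h1⟩ ⟨y', hy', h2⟩
    refine ⟨y + y', AddSubgroup.add_mem _ hy hy', fun l v => ?_⟩
    simp only [Pi.add_apply, add_mul, map_add, h1, h2]
  · refine ⟨0, AddSubgroup.zero_mem _, fun l v => ?_⟩
    simp only [Pi.zero_apply, zero_mul, map_zero]
  · intro i z
    by_cases h : X.dim ≤ i + Y.dim
    · obtain ⟨t, ht⟩ := hW.push X Y f i (i + Y.dim - X.dim) (by omega) z
      exact ⟨_, cl_mem_JC W t, ht⟩
    · refine ⟨0, AddSubgroup.zero_mem _, fun l v => ?_⟩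
      rw [Pi.zero_apply, zero_mul, map_zero]
      refine (W l).hom_induction
        (P := fun v => 0 = (W l).tr X ((W l).cl z * (W l).pull f v)) (by simp) ?_ ?_ v
      · intro x y hx hy; rw [map_add, mul_add, map_add, ← hx, ← hy, add_zero]
      · intro j y hy
        by_cases hj : 2 * i + j = 2 * X.dim
        · have : y = 0 := by
            have h2 : (W l).grad Y j = ⊥ := (W l).vanish Y j (by omega)
            rw [h2] at hy; simpa using hy
          simp [this]
        · exact ((W l).tr_grad X _ _ ((W l).mul_mem_grad ((W l).cl_mem_grad z)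
            ((W l).pull_grad f j y hy)) hj).symm

end family

end Pool.Agent.H62A
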