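import Pool.Agent.W_a3c811_h62.JHom

/-! The algebra of motivic endomorphisms of the direct sum of the cohomologies of the `Y a`. -/

noncomputable section

namespace Pool.Agent.H62A

open Polynomial Pool.Agent.WeilH_h6 Pool.Agent.WeilH_h6.VarClass Pool.Agent.H62D

universe u v w

variable {k : Type u} [Field k] {𝒱 : VarClass k}

section single

variable {K : Type v} [Field K] (W : Weil.{u, v, w} 𝒱 K) {ι : Type} [DecidableEq ι]
  {Y : ι → 𝒱.Obj}

/-- The block `H(Y a) → H(Y b)` of an endomorphism of the direct sum. -/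
def blk (T : TEnd W Y) (a b : ι) : W.H (Y a) →ₗ[K] W.H (Y b) :=
  LinearMap.proj b ∘ₗ T ∘ₗ LinearMap.single K (fun a => W.H (Y a)) a

/-- The endomorphism with one nonzero block. -/
def unblk {a b : ι} (φ : W.H (Y a) →ₗ[K] W.H (Y b)) : TEnd W Y :=
  LinearMap.single K (fun a => W.H (Y a)) b ∘ₗ φ ∘ₗ LinearMap.proj a

lemma blk_apply [Fintype ι] (T : TEnd W Y) (x : Tot W Y) (b : ι) :
    T x b = ∑ a, blk W T a b (x a) := by
  have hx : x = ∑ a, LinearMap.single K (fun a => W.H (Y a)) a (x a) := by
    simp only [LinearMap.coe_single]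
    exact (Finset.univ_sum_single x).symm
  conv_lhs => rw [hx]
  rw [map_sum, Finset.sum_apply]
  rfl

lemma blk_ext [Fintype ι] {S T : TEnd W Y} (h : ∀ a b, blk W S a b = blk W T a b) : S = T := by
  refine LinearMap.ext fun x => funext fun b => ?_
  rw [blk_apply, blk_apply]
  exact Finset.sum_congr rfl fun a _ => by rw [h a b]

lemma blk_mul [Fintype ι] (S T : TEnd W Y) (a c : ι) :
    blk W (S ∘ₗ T) a c = ∑ b, blk W S b c ∘ₗ blk W T a b := by
  refine LinearMap.ext fun v => ?_
  rw [LinearMap.sum_apply]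
  exact blk_apply W S (T (LinearMap.single K (fun a => W.H (Y a)) a v)) c

lemma isAction_iff [Fintype ι] (c : ∀ a b, TCyc ((Y a).prod (Y b))) (T : TEnd W Y) :
    IsAction W Y c T ↔ ∀ a b, blk W T a b = W.act (clT W (c a b)) := by
  constructor
  · intro h a b
    refine LinearMap.ext fun v => W.ext_tr fun w => ?_
    have h1 := h (LinearMap.single K (fun a => W.H (Y a)) a v) b w
    have h2 : W.tr (Y b) (blk W T a b v * w) =
        W.deg (T (LinearMap.single K (fun a => W.H (Y a)) a v) b * w) := rfl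
    rw [h2, h1, W.tr_act, Finset.sum_eq_single a]
    · simp only [LinearMap.coe_single, Pi.single_eq_same]
    · intro a' _ ha'
      have : (LinearMap.single K (fun a => W.H (Y a)) a v) a' = 0 :=
        Pi.single_eq_of_ne (M := fun a => W.H (Y a)) ha' v
      change W.tr _ (clT W (c a' b) * (W.p1 (Y a') (Y b)
        ((LinearMap.single K (fun a => W.H (Y a)) a v) a') * W.p2 (Y a') (Y b) w)) = 0
      rw [this, map_zero, zero_mul, mul_zero, map_zero]
    · intro ha
      exact absurd (Finset.mem_univ a) ha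
  · intro h x b y
    rw [blk_apply, Finset.sum_mul]
    change W.tr (Y b) _ = _
    rw [map_sum]
    refine Finset.sum_congr rfl fun a _ => ?_
    rw [h a b, W.tr_act]

/-- The trace is the sum of the traces of the diagonal blocks. -/
lemma trace_eq_sum_blk [Fintype ι] (T : TEnd W Y) :
    LinearMap.trace K (Tot W Y) T = ∑ a, LinearMap.trace K (W.H (Y a)) (blk W T a a) := by
  have h1 : T = ∑ a, LinearMap.single K (fun a => W.H (Y a)) a ∘ₗ
      ((LinearMap.proj a : Tot W Y →ₗ[K] W.H (Y a)) ∘ₗ T) := by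
    refine LinearMap.ext fun x => ?_
    rw [LinearMap.sum_apply]
    simp only [LinearMap.comp_apply, LinearMap.coe_single, LinearMap.proj_apply]
    exact (Finset.univ_sum_single (T x)).symm
  conv_lhs => rw [h1]
  rw [map_sum]
  refine Finset.sum_congr rfl fun a _ => ?_
  rw [LinearMap.trace_comp_comm']
  rfl

/-- `trace (unblk ψ ∘ T) = trace (ψ ∘ blk T a b)` for `ψ : H(Y b) → H(Y a)`
(`LinearMap.trace_comp_comm'`). -/
lemma trace_unblk_comp [Fintype ι] {a b : ι} (ψ : W.H (Y b) →ₗ[K] W.H (Y a)) (T : TEnd W Y) :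
    LinearMap.trace K (Tot W Y) (unblk W ψ ∘ₗ T) =
      LinearMap.trace K (W.H (Y a)) (ψ ∘ₗ blk W T a b) := by
  have h1 : unblk W ψ ∘ₗ T = LinearMap.single K (fun a => W.H (Y a)) a ∘ₗ
      (ψ ∘ₗ (LinearMap.proj b : Tot W Y →ₗ[K] W.H (Y b)) ∘ₗ T) := rfl
  rw [h1, LinearMap.trace_comp_comm']
  rfl

end single

section family

variable {I : Type} {K : I → Type v} [∀ l, Field (K l)] [∀ l, CharZero (K l)]
  {W : ∀ l, Weil.{u, v, w} 𝒱 (K l)} {ι : Type} [Fintype ι] [DecidableEq ι] {Y : ι → 𝒱.Obj}

lemma motivic_iff {T : ∀ l, TEnd (W l) Y} :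
    Motivic W Y T ↔ ∀ a b, (fun l => blk (W l) (T l) a b) ∈ JHom W (Y a) (Y b) := by
  constructor
  · rintro ⟨c, hc⟩ a b
    exact ⟨fun l => clT (W l) (c a b), clT_mem_JC W (c a b),
      fun l => (isAction_iff (W l) c (T l)).1 (hc l) a b⟩
  · intro h
    choose x hx hφ using h
    choose z hz using hx
    refine ⟨z, fun l => (isAction_iff (W l) z (T l)).2 fun a b => ?_⟩
    exact (hφ a b l).trans (by rw [hz a b l])

lemma motivic_unblk {a b : ι} {φ : ∀ l, (W l).H (Y a) →ₗ[K l] (W l).H (Y b)}
    (hφ : φ ∈ JHom W (Y a) (Y b)) : Motivic W Y fun l => unblk (W l) (φ l) := by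
  rw [motivic_iff]
  intro a' b'
  by_cases ha : a' = a
  · subst ha
    by_cases hb : b' = b
    · subst hb
      have : (fun l => blk (W l) (unblk (W l) (φ l)) a' b') = φ := by
        funext l
        refine LinearMap.ext fun v => ?_
        simp [blk, unblk]
      rw [this]
      exact hφ
    · have : (fun l => blk (W l) (unblk (W l) (φ l)) a' b') = 0 := by
        funext l
        refine LinearMap.ext fun v => ?_
        simp [blk, unblk, Pi.single_eq_of_ne hb]
      rw [this]
      exact zero_mem _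
  · have : (fun l => blk (W l) (unblk (W l) (φ l)) a' b') = 0 := by
      funext l
      refine LinearMap.ext fun v => ?_
      simp [blk, unblk, Pi.single_eq_of_ne (Ne.symm ha)]
    rw [this]
    exact zero_mem _

lemma motivic_add {S T : ∀ l, TEnd (W l) Y} (hS : Motivic W Y S) (hT : Motivic W Y T) :
    Motivic W Y (fun l => S l + T l) := by
  rw [motivic_iff] at hS hT ⊢
  exact fun a b => add_mem (hS a b) (hT a b)

lemma motivic_zero : Motivic W Y (fun l => (0 : TEnd (W l) Y)) := by
  rw [motivic_iff]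
  exact fun a b => zero_mem (JHom W (Y a) (Y b))

lemma motivic_smul (r : ℚ) {T : ∀ l, TEnd (W l) Y} (hT : Motivic W Y T) :
    Motivic W Y (fun l => (r : K l) • T l) := by
  rw [motivic_iff] at hT ⊢
  exact fun a b => smul_mem_JHom W r (hT a b)

lemma motivic_mul (hW : Compatible W) {S T : ∀ l, TEnd (W l) Y} (hS : Motivic W Y S)
    (hT : Motivic W Y T) : Motivic W Y (fun l => S l ∘ₗ T l) := by
  rw [motivic_iff] at hS hT ⊢
  intro a c
  have h1 : (fun l => blk (W l) (S l ∘ₗ T l) a c) =
      ∑ b, fun l => blk (W l) (S l) b c ∘ₗ blk (W l) (T l) a b := by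
    funext l
    rw [blk_mul, Finset.sum_apply]
  rw [h1]
  exact sum_mem fun b _ => comp_mem_JHom hW (hT a b) (hS b c)

lemma motivic_one (hW : Compatible W) : Motivic W Y (fun l => (LinearMap.id : TEnd (W l) Y)) := by
  rw [motivic_iff]
  intro a b
  by_cases hb : b = a
  · subst hb
    have : (fun l => blk (W l) (LinearMap.id : TEnd (W l) Y) b b) =
        fun l => (LinearMap.id : (W l).H (Y b) →ₗ[K l] (W l).H (Y b)) := by
      funext l
      refine LinearMap.ext fun v => ?_
      simp [blk]
    rw [this]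
    exact id_mem_JHom hW (Y b)
  · have : (fun l => blk (W l) (LinearMap.id : TEnd (W l) Y) a b) = 0 := by
      funext l
      refine LinearMap.ext fun v => ?_
      simp [blk, Pi.single_eq_of_ne hb]
    rw [this]
    exact zero_mem _

/-- The trace of a motivic endomorphism is rational and does not depend on the theory
(`trace_eq_sum_blk`, `JHom_trace`; sum the rational numbers). -/
lemma motivic_trace (hW : Compatible W) (h : ∀ a n, KunnethMotivic W (Y a) n)
    {T : ∀ l, TEnd (W l) Y} (hT : Motivic W Y T) :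
    ∃ r : ℚ, ∀ l, LinearMap.trace (K l) (Tot (W l) Y) (T l) = (r : K l) := by
  rw [motivic_iff] at hT
  choose r hr using fun a => JHom_trace hW (h a) (hT a a)
  refine ⟨∑ a, r a, fun l => ?_⟩
  rw [trace_eq_sum_blk, Rat.cast_sum]
  exact Finset.sum_congr rfl fun a _ => hr a l

/-- If `D(Y a × Y b)` holds in the theory `l0` for all `a, b`, then a motivic endomorphism `T` with
`trace (S ∘ T) = 0` in the theory `l0` for all motivic `S` is zero in the theory `l0`
(`JHom_eq_zero` for all blocks, with `S = unblk ψ`, `trace_unblk_comp`, `blk_ext`). -/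
lemma motivic_eq_zero (hW : Compatible W) (h : ∀ a n, KunnethMotivic W (Y a) n) {l0 : I}
    (hD : ∀ a b, (W l0).HomEqNum ((Y a).prod (Y b))) {T : ∀ l, TEnd (W l) Y}
    (hT : Motivic W Y T) (htr : ∀ S : ∀ l, TEnd (W l) Y, Motivic W Y S →
      LinearMap.trace (K l0) (Tot (W l0) Y) (S l0 ∘ₗ T l0) = 0) : T l0 = 0 := by
  refine blk_ext (W l0) fun a b => ?_
  have h1 := JHom_eq_zero hW (h a) (hD a b) (motivic_iff.1 hT a b) (by
    intro ψ hψ
    rw [← trace_unblk_comp (W l0) (ψ l0) (T l0)]
    exact htr _ (motivic_unblk hψ))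
  rw [h1]
  rfl

end family

end Pool.Agent.H62A
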